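import Mathlib

/-!
Existence, by counting, of the random functions used in the lower bound.
-/

namespace Pool.Agent.Lib_MP_ba67f2_lc

section Prob

variable {B : Type} [Fintype B] [DecidableEq B] {q : ℕ}

/-- unpicked fraction of the column over `β` -/
noncomputable def uu (N : Finset (B × Fin q)) (β : B) : ℝ :=
  1 - ((Finset.univ.filter (fun y : Fin q => (β, y) ∈ N)).card : ℝ) / q

/-- probability that a random request with pattern `A` avoids `N` -/
noncomputable def pr (N : Finset (B × Fin q)) (A : Finset B) : ℝ := ∏ β ∈ A, uu N β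

theorem count_miss (hq : 0 < q) (N : Finset (B × Fin q)) (A : Finset B) :
    ((Finset.univ.filter (fun f : B → Fin q => ∀ β ∈ A, (β, f β) ∉ N)).card : ℝ) =
      (q : ℝ) ^ (Fintype.card B) * pr N A := by
  classical
  have hq' : (q : ℝ) ≠ 0 := by positivity
  have e : Finset.univ.filter (fun f : B → Fin q => ∀ β ∈ A, (β, f β) ∉ N) =
      Fintype.piFinset (fun β => if β ∈ A then Finset.univ.filter (fun y : Fin q => (β, y) ∉ N)
        else Finset.univ) := by
    ext f
    simp only [Finset.mem_filter, Finset.mem_univ, true_and, Fintype.mem_piFinset]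
    constructor
    · intro h β
      by_cases hβ : β ∈ A
      · simp [hβ, h β hβ]
      · simp [hβ]
    · intro h β hβ
      have := h β
      simpa [hβ] using this
  rw [e, Fintype.card_piFinset]
  push_cast
  have e2 : ∀ β : B, ((if β ∈ A then Finset.univ.filter (fun y : Fin q => (β, y) ∉ N)
        else Finset.univ : Finset (Fin q)).card : ℝ) = q * (if β ∈ A then uu N β else 1) := by
    intro β
    split_ifs with h
    · have := Finset.card_filter_add_card_filter_not (s := (Finset.univ : Finset (Fin q)))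
        (fun y : Fin q => (β, y) ∈ N)
      rw [Finset.card_univ, Fintype.card_fin] at this
      have h2 : ((Finset.univ.filter (fun y : Fin q => (β, y) ∈ N)).card : ℝ) +
        ((Finset.univ.filter (fun y : Fin q => (β, y) ∉ N)).card : ℝ) = q := by exact_mod_cast this
      rw [uu]
      field_simp
      linarith
    · simp
  rw [Finset.prod_congr rfl (fun β _ => e2 β), Finset.prod_mul_distrib, Finset.prod_const,
    Finset.card_univ, pr]
  congr 1
  rw [Finset.prod_ite_mem]
  simp

theorem count_hit_le (hq : 0 < q) (N : Finset (B × Fin q)) (A : Finset B) (θ : ℝ)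
    (h : 1 - pr N A ≤ θ) :
    ((Finset.univ.filter (fun f : B → Fin q => ∃ β ∈ A, (β, f β) ∈ N)).card : ℝ) ≤
      (q : ℝ) ^ (Fintype.card B) * θ := by
  classical
  have h1 := Finset.card_filter_add_card_filter_not (s := (Finset.univ : Finset (B → Fin q)))
        (fun f : B → Fin q => ∃ β ∈ A, (β, f β) ∈ N)
  have h2 : Finset.univ.filter (fun f : B → Fin q => ¬ ∃ β ∈ A, (β, f β) ∈ N) =
    Finset.univ.filter (fun f : B → Fin q => ∀ β ∈ A, (β, f β) ∉ N) := by
    ext f; simp
  rw [h2, Finset.card_univ, Fintype.card_fun, Fintype.card_fin] at h1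
  have h3 := count_miss hq N A
  have h4 : ((Finset.univ.filter (fun f : B → Fin q => ∃ β ∈ A, (β, f β) ∈ N)).card : ℝ) +
    ((Finset.univ.filter (fun f : B → Fin q => ∀ β ∈ A, (β, f β) ∉ N)).card : ℝ) =
      (q : ℝ) ^ (Fintype.card B) := by exact_mod_cast h1
  have h5 : (0 : ℝ) ≤ (q : ℝ) ^ (Fintype.card B) := by positivity
  nlinarith

theorem count_indep {ι W : Type} [Fintype ι] [DecidableEq ι] [Fintype W] [DecidableEq W]
    (J : Finset ι) (BN : Finset W) (θ : ℝ) (h : (BN.card : ℝ) ≤ Fintype.card W * θ) :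
    ((Finset.univ.filter (fun ω : ι → W => ∀ j ∈ J, ω j ∈ BN)).card : ℝ) ≤
      (Fintype.card W : ℝ) ^ (Fintype.card ι) * θ ^ J.card := by
  classical
  have e : Finset.univ.filter (fun ω : ι → W => ∀ j ∈ J, ω j ∈ BN) =
      Fintype.piFinset (fun j => if j ∈ J then BN else Finset.univ) := by
    ext ω
    simp only [Finset.mem_filter, Finset.mem_univ, true_and, Fintype.mem_piFinset]
    constructor
    · intro h j
      by_cases hj : j ∈ J
      · simp [hj, h j hj]
      · simp [hj]
    · intro h j hj
      have := h j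
      simpa [hj] using this
  rw [e, Fintype.card_piFinset]
  push_cast
  calc ∏ j : ι, ((if j ∈ J then BN else Finset.univ : Finset W).card : ℝ)
      ≤ ∏ j : ι, ((Fintype.card W : ℝ) * (if j ∈ J then θ else 1)) := by
        apply Finset.prod_le_prod
        · intro j _; positivity
        · intro j _
          split_ifs
          · exact h
          · simp
    _ = _ := by
        rw [Finset.prod_mul_distrib, Finset.prod_const, Finset.card_univ, Finset.prod_ite_mem]
        simp

theorem count_agree {ι : Type} [Fintype ι] [DecidableEq ι] (j j' : ι) (hj : j ≠ j')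
    (V : Finset B) :
    (Finset.univ.filter (fun ω : ι → B → Fin q => ∀ β ∈ V, ω j β = ω j' β)).card * q ^ V.card ≤
      Fintype.card (ι → B → Fin q) := by
  classical
  have h1 : Fintype.card (V → Fin q) = q ^ V.card := by
    rw [Fintype.card_fun, Fintype.card_fin, Fintype.card_coe]
  rw [← h1, ← Finset.card_univ (α := V → Fin q), ← Finset.card_product,
    ← Finset.card_univ (α := ι → B → Fin q)]
  apply Finset.card_le_card_of_injOn
    (fun z : (ι → B → Fin q) × (V → Fin q) =>
      Function.update z.1 j (fun β => if h : β ∈ V then z.2 ⟨β, h⟩ else z.1 j β))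
  · intro z _
    exact Finset.mem_coe.mpr (Finset.mem_univ _)
  · rintro ⟨ω, f⟩ hz ⟨ω', f'⟩ hz' h
    simp only [Finset.coe_product, Finset.coe_filter, Finset.mem_univ, true_and,
      Finset.coe_univ, Set.mem_prod, Set.mem_ofPred_eq, Set.mem_univ, and_true] at hz hz'
    simp only at h
    have hjj : ∀ i, i ≠ j → ω i = ω' i := by
      intro i hi
      have := congrFun h i
      rwa [Function.update_of_ne hi, Function.update_of_ne hi] at this
    have hj0 := congrFun h j
    rw [Function.update_self, Function.update_self] at hj0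
    have hf : f = f' := by
      funext ⟨β, hβ⟩
      have := congrFun hj0 β
      simpa [hβ] using this
    have hω : ω = ω' := by
      funext i
      by_cases hi : i = j
      · subst hi
        funext β
        by_cases hβ : β ∈ V
        · rw [hz β hβ, hz' β hβ, hjj j' (Ne.symm hj)]
        · have := congrFun hj0 β
          simpa [hβ] using this
      · exact hjj i hi
    rw [hω, hf]

theorem exists_omega (P : Finset (Finset B)) (F g : ℕ) (hq : 0 < q)
    (hA : (P.card : ℝ) * 2 ^ (Fintype.card B * q) * (1 - (1 / 4 : ℝ) ^ g) ^ F ≤ 1 / 4)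
    (hB : (P.card * F) ^ 2 * (Fintype.card B) ^ 3 * 4 ≤ q ^ 3) :
    ∃ ω : (P × Fin F) → B → Fin q,
      (∀ A : P, ∀ N : Finset (B × Fin q), (1 / 4 : ℝ) ^ g ≤ pr N A.1 →
        ∃ i : Fin F, ∀ β ∈ A.1, (β, ω (A, i) β) ∉ N) ∧
      (∀ j j' : P × Fin F, j ≠ j' →
        (Finset.univ.filter (fun β => ω j β = ω j' β)).card ≤ 2) := by
  classical
  by_contra hcon
  push Not at hcon
  let BadA : P × Finset (B × Fin q) → Finset ((P × Fin F) → B → Fin q) := fun z =>
    Finset.univ.filter (fun ω : ((P × Fin F) → B → Fin q) => ∀ i : Fin F, ∃ β ∈ z.1.1, (β, ω (z.1, i) β) ∈ z.2)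
  let BadB : ((P × Fin F) × (P × Fin F)) × Finset B → Finset ((P × Fin F) → B → Fin q) := fun z =>
    Finset.univ.filter (fun ω : ((P × Fin F) → B → Fin q) => ∀ β ∈ z.2, ω z.1.1 β = ω z.1.2 β)
  let IA : Finset (P × Finset (B × Fin q)) :=
    Finset.univ.filter (fun z => (1 / 4 : ℝ) ^ g ≤ pr z.2 z.1.1)
  let IB : Finset (((P × Fin F) × (P × Fin F)) × Finset B) :=
    (Finset.univ.filter (fun z : (P × Fin F) × (P × Fin F) => z.1 ≠ z.2)) ×ˢ
      (Finset.powersetCard 3 Finset.univ)
  have hcov : (Finset.univ : Finset ((P × Fin F) → B → Fin q)) ⊆ IA.biUnion BadA ∪ IB.biUnion BadB := by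
    intro ω _
    rw [Finset.mem_union]
    by_cases h : ∀ A : P, ∀ N : Finset (B × Fin q), (1 / 4 : ℝ) ^ g ≤ pr N A.1 →
        ∃ i : Fin F, ∀ β ∈ A.1, (β, ω (A, i) β) ∉ N
    · right
      obtain ⟨j, j', hjj, hc⟩ := hcon ω h
      obtain ⟨V, hV, hVc⟩ := Finset.exists_subset_card_eq (Nat.succ_le_of_lt hc)
      rw [Finset.mem_biUnion]
      refine ⟨((j, j'), V), ?_, ?_⟩
      · simp only [IB, Finset.mem_product, Finset.mem_filter, Finset.mem_univ, true_and,
          Finset.mem_powersetCard, Finset.subset_univ]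
        exact ⟨hjj, hVc⟩
      · simp only [BadB, Finset.mem_filter, Finset.mem_univ, true_and]
        intro β hβ
        have := hV hβ
        simpa using this
    · left
      push Not at h
      obtain ⟨A, N, hN, hbad⟩ := h
      rw [Finset.mem_biUnion]
      refine ⟨(A, N), ?_, ?_⟩
      · simp only [IA, Finset.mem_filter, Finset.mem_univ, true_and]
        exact hN
      · simp only [BadA, Finset.mem_filter, Finset.mem_univ, true_and]
        exact hbad
  have hcard := (Finset.card_le_card hcov).trans (Finset.card_union_le _ _)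
  rw [Finset.card_univ] at hcard
  have hW : (Fintype.card (B → Fin q) : ℝ) = (q : ℝ) ^ (Fintype.card B) := by
    rw [Fintype.card_fun, Fintype.card_fin]; push_cast; rfl
  have hOcard : (Fintype.card ((P × Fin F) → B → Fin q) : ℝ) =
      ((q : ℝ) ^ (Fintype.card B)) ^ (Fintype.card (P × Fin F)) := by
    rw [Fintype.card_fun, ← hW]; push_cast; rfl
  have hOpos : (0 : ℝ) < Fintype.card ((P × Fin F) → B → Fin q) := by
    rw [hOcard]; positivity
  -- bound for the first kind
  have h1 : ((IA.biUnion BadA).card : ℝ) ≤ (Fintype.card ((P × Fin F) → B → Fin q) : ℝ) / 4 := by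
    have e1 : ∀ z ∈ IA, ((BadA z).card : ℝ) ≤ (Fintype.card ((P × Fin F) → B → Fin q) : ℝ) * (1 - (1 / 4 : ℝ) ^ g) ^ F := by
      rintro ⟨A, N⟩ hz
      simp only [IA, Finset.mem_filter, Finset.mem_univ, true_and] at hz
      have e2 := count_hit_le hq N A.1 (1 - (1 / 4 : ℝ) ^ g) (by linarith)
      rw [← hW] at e2
      have e3 := count_indep (ι := P × Fin F)
        (Finset.univ.image (fun i : Fin F => ((A, i) : P × Fin F))) _ _ e2
      rw [Finset.card_image_of_injective _ (by intro a b hab; simpa using hab),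
        Finset.card_univ, Fintype.card_fin, hW, ← hOcard] at e3
      refine le_trans (le_of_eq ?_) e3
      congr 1
      apply congrArg
      ext ω
      simp [BadA]
    calc ((IA.biUnion BadA).card : ℝ) ≤ ((∑ z ∈ IA, (BadA z).card : ℕ) : ℝ) := by
          exact_mod_cast Finset.card_biUnion_le
      _ = ∑ z ∈ IA, ((BadA z).card : ℝ) := by push_cast; rfl
      _ ≤ ∑ z ∈ IA, (Fintype.card ((P × Fin F) → B → Fin q) : ℝ) * (1 - (1 / 4 : ℝ) ^ g) ^ F := Finset.sum_le_sum e1
      _ = IA.card * ((Fintype.card ((P × Fin F) → B → Fin q) : ℝ) * (1 - (1 / 4 : ℝ) ^ g) ^ F) := by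
          rw [Finset.sum_const, nsmul_eq_mul]
      _ ≤ (P.card * 2 ^ (Fintype.card B * q)) *
          ((Fintype.card ((P × Fin F) → B → Fin q) : ℝ) * (1 - (1 / 4 : ℝ) ^ g) ^ F) := by
          apply mul_le_mul_of_nonneg_right
          · have : IA.card ≤ P.card * 2 ^ (Fintype.card B * q) := by
              refine (Finset.card_filter_le _ _).trans ?_
              rw [Finset.card_univ, Fintype.card_prod, Fintype.card_finset, Fintype.card_prod,
                Fintype.card_fin, Fintype.card_coe]
            exact_mod_cast this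
          · have h4 : (0 : ℝ) ≤ 1 - (1 / 4 : ℝ) ^ g := by
              have : (1 / 4 : ℝ) ^ g ≤ 1 := pow_le_one₀ (by norm_num) (by norm_num)
              linarith
            positivity
      _ = (Fintype.card ((P × Fin F) → B → Fin q) : ℝ) *
          ((P.card : ℝ) * 2 ^ (Fintype.card B * q) * (1 - (1 / 4 : ℝ) ^ g) ^ F) := by ring
      _ ≤ (Fintype.card ((P × Fin F) → B → Fin q) : ℝ) * (1 / 4) := mul_le_mul_of_nonneg_left hA hOpos.le
      _ = _ := by ring
  have h2 : ((IB.biUnion BadB).card : ℝ) ≤ (Fintype.card ((P × Fin F) → B → Fin q) : ℝ) / 4 := by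
    have hq3 : (0 : ℝ) < (q : ℝ) ^ 3 := by positivity
    have e1 : ∀ z ∈ IB, ((BadB z).card : ℝ) ≤ (Fintype.card ((P × Fin F) → B → Fin q) : ℝ) / q ^ 3 := by
      rintro ⟨⟨j, j'⟩, V⟩ hz
      simp only [IB, Finset.mem_product, Finset.mem_filter, Finset.mem_univ, true_and,
          Finset.mem_powersetCard, Finset.subset_univ] at hz
      have e2 := count_agree (q := q) j j' hz.1 V
      rw [hz.2] at e2
      rw [le_div_iff₀ hq3]
      exact_mod_cast e2
    calc ((IB.biUnion BadB).card : ℝ) ≤ ((∑ z ∈ IB, (BadB z).card : ℕ) : ℝ) := by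
          exact_mod_cast Finset.card_biUnion_le
      _ = ∑ z ∈ IB, ((BadB z).card : ℝ) := by push_cast; rfl
      _ ≤ ∑ z ∈ IB, (Fintype.card ((P × Fin F) → B → Fin q) : ℝ) / q ^ 3 := Finset.sum_le_sum e1
      _ = IB.card * ((Fintype.card ((P × Fin F) → B → Fin q) : ℝ) / q ^ 3) := by
          rw [Finset.sum_const, nsmul_eq_mul]
      _ ≤ ((P.card * F) ^ 2 * (Fintype.card B) ^ 3) * ((Fintype.card ((P × Fin F) → B → Fin q) : ℝ) / q ^ 3) := by
          apply mul_le_mul_of_nonneg_right _ (by positivity)
          have : IB.card ≤ (P.card * F) ^ 2 * (Fintype.card B) ^ 3 := by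
            simp only [IB]
            rw [Finset.card_product]
            apply Nat.mul_le_mul
            · refine (Finset.card_filter_le _ _).trans ?_
              rw [Finset.card_univ, Fintype.card_prod, Fintype.card_prod, Fintype.card_fin,
                Fintype.card_coe]
              exact le_of_eq (by ring)
            · rw [Finset.card_powersetCard, Finset.card_univ]
              exact Nat.choose_le_pow _ _
          exact_mod_cast this
      _ ≤ _ := by
          have hB' : ((P.card : ℝ) * F) ^ 2 * (Fintype.card B) ^ 3 * 4 ≤ (q : ℝ) ^ 3 := by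
            exact_mod_cast hB
          rw [mul_div_assoc', div_le_div_iff₀ hq3 (by norm_num)]
          nlinarith [mul_le_mul_of_nonneg_left hB' hOpos.le]
  have h3 : (Fintype.card ((P × Fin F) → B → Fin q) : ℝ) ≤ ((IA.biUnion BadA).card : ℝ) + ((IB.biUnion BadB).card : ℝ) := by
    exact_mod_cast hcard
  linarith

end Prob

end Pool.Agent.Lib_MP_ba67f2_lc
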