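import Mathlib
import Pool.Agent.Lib_MP_ba67f2_lc.Prob

/-!
Basic facts about the unpicked fractions.
-/

namespace Pool.Agent.Lib_MP_ba67f2_lc

section PrBasics

variable {B : Type} [Fintype B] [DecidableEq B] {q : ℕ}

theorem uu_nonneg (hq : 0 < q) (N : Finset (B × Fin q)) (β : B) : 0 ≤ uu N β := by
  rw [uu, sub_nonneg, div_le_one (by positivity)]
  have : (Finset.univ.filter (fun y : Fin q => (β, y) ∈ N)).card ≤ q := by
    refine (Finset.card_filter_le _ _).trans ?_
    simp
  exact_mod_cast this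

theorem uu_le_one (N : Finset (B × Fin q)) (β : B) : uu N β ≤ 1 := by
  rw [uu]
  have : (0 : ℝ) ≤ ((Finset.univ.filter (fun y : Fin q => (β, y) ∈ N)).card : ℝ) / q := by
    positivity
  linarith

theorem uu_anti {N N' : Finset (B × Fin q)} (h : N ⊆ N') (β : B) : uu N' β ≤ uu N β := by
  rw [uu, uu]
  have : (Finset.univ.filter (fun y : Fin q => (β, y) ∈ N)).card ≤
      (Finset.univ.filter (fun y : Fin q => (β, y) ∈ N')).card := by
    apply Finset.card_le_card
    intro y hy
    simp only [Finset.mem_filter, Finset.mem_univ, true_and] at hy ⊢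
    exact h hy
  have h2 : ((Finset.univ.filter (fun y : Fin q => (β, y) ∈ N)).card : ℝ) / q ≤
      ((Finset.univ.filter (fun y : Fin q => (β, y) ∈ N')).card : ℝ) / q := by
    have : ((Finset.univ.filter (fun y : Fin q => (β, y) ∈ N)).card : ℝ) ≤
      ((Finset.univ.filter (fun y : Fin q => (β, y) ∈ N')).card : ℝ) := by exact_mod_cast this
    gcongr
  linarith

theorem pr_nonneg (hq : 0 < q) (N : Finset (B × Fin q)) (A : Finset B) : 0 ≤ pr N A :=
  Finset.prod_nonneg (fun β _ => uu_nonneg hq N β)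

theorem pr_le_one (hq : 0 < q) (N : Finset (B × Fin q)) (A : Finset B) : pr N A ≤ 1 :=
  Finset.prod_le_one (fun β _ => uu_nonneg hq N β) (fun β _ => uu_le_one N β)

theorem pr_anti (hq : 0 < q) {N N' : Finset (B × Fin q)} (h : N ⊆ N') (A : Finset B) :
    pr N' A ≤ pr N A :=
  Finset.prod_le_prod (fun β _ => uu_nonneg hq N' β) (fun β _ => uu_anti h β)

theorem pr_empty (A : Finset B) : pr (∅ : Finset (B × Fin q)) A = 1 := by
  simp [pr, uu]

theorem pr_insert {N : Finset (B × Fin q)} {x : B × Fin q} {A : Finset B} (h : x.1 ∉ A) :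
    pr (insert x N) A = pr N A := by
  rw [pr, pr]
  apply Finset.prod_congr rfl
  intro β hβ
  rw [uu, uu]
  congr 3
  apply congrArg
  ext y
  simp only [Finset.mem_filter, Finset.mem_univ, true_and, Finset.mem_insert]
  constructor
  · rintro (h1 | h1)
    · exfalso
      apply h
      rw [← h1]
      exact hβ
    · exact h1
  · exact Or.inr

theorem prod_sub_le {A : Finset B} (f f' : B → ℝ) (h0 : ∀ β, 0 ≤ f' β) (h1 : ∀ β, f' β ≤ f β)
    (h2 : ∀ β, f β ≤ 1) :
    ∏ β ∈ A, f β - ∏ β ∈ A, f' β ≤ ∑ β ∈ A, (f β - f' β) := by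
  classical
  induction A using Finset.induction_on with
  | empty => simp
  | insert a A ha ih =>
    rw [Finset.prod_insert ha, Finset.prod_insert ha, Finset.sum_insert ha]
    have h3 : ∏ β ∈ A, f' β ≤ 1 := Finset.prod_le_one (fun β _ => h0 β)
      (fun β _ => (h1 β).trans (h2 β))
    have h4 : 0 ≤ ∏ β ∈ A, f' β := Finset.prod_nonneg (fun β _ => h0 β)
    have h5 : ∏ β ∈ A, f' β ≤ ∏ β ∈ A, f β := Finset.prod_le_prod (fun β _ => h0 β)
      (fun β _ => h1 β)
    have h6 := h0 a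
    have h7 := h1 a
    have h8 := h2 a
    have e1 : f a * ∏ β ∈ A, f β - f' a * ∏ β ∈ A, f' β =
      f a * (∏ β ∈ A, f β - ∏ β ∈ A, f' β) + (f a - f' a) * ∏ β ∈ A, f' β := by ring
    have e2 : f a * (∏ β ∈ A, f β - ∏ β ∈ A, f' β) ≤ 1 * (∏ β ∈ A, f β - ∏ β ∈ A, f' β) :=
      mul_le_mul_of_nonneg_right h8 (by linarith)
    have e3 : (f a - f' a) * ∏ β ∈ A, f' β ≤ (f a - f' a) * 1 :=
      mul_le_mul_of_nonneg_left h3 (by linarith)
    linarith

theorem sum_uu_sub (hq : 0 < q) {N₀ N : Finset (B × Fin q)} (h : N₀ ⊆ N) (A : Finset B) :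
    ∑ β ∈ A, (uu N₀ β - uu N β) = (((N \ N₀).filter (fun x => x.1 ∈ A)).card : ℝ) / q := by
  have e1 : ((N \ N₀).filter (fun x => x.1 ∈ A)).card =
      ∑ β ∈ A, ((Finset.univ.filter (fun y : Fin q => (β, y) ∈ N \ N₀)).card) := by
    rw [Finset.card_eq_sum_card_fiberwise (f := Prod.fst) (t := A)]
    · apply Finset.sum_congr rfl
      intro β hβ
      have : ((N \ N₀).filter (fun x => x.1 ∈ A)).filter (fun x => x.1 = β) =
          (Finset.univ.filter (fun y : Fin q => (β, y) ∈ N \ N₀)).image (Prod.mk β) := by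
        ext ⟨x, y⟩
        simp only [Finset.mem_filter, Finset.mem_image, Finset.mem_univ, true_and, Prod.mk.injEq]
        constructor
        · rintro ⟨⟨h1, _⟩, rfl⟩
          exact ⟨y, h1, rfl, rfl⟩
        · rintro ⟨y', h1, rfl, rfl⟩
          exact ⟨⟨h1, hβ⟩, rfl⟩
      rw [this, Finset.card_image_of_injective _ (by intro a b hab; simpa using hab)]
    · intro x hx
      simp only [Finset.coe_filter, Set.mem_ofPred_eq] at hx
      exact hx.2
  have e2 : ∀ β, uu N₀ β - uu N β =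
      ((Finset.univ.filter (fun y : Fin q => (β, y) ∈ N \ N₀)).card : ℝ) / q := by
    intro β
    rw [uu, uu]
    have h1 : (Finset.univ.filter (fun y : Fin q => (β, y) ∈ N \ N₀)) =
      (Finset.univ.filter (fun y : Fin q => (β, y) ∈ N)) \
        (Finset.univ.filter (fun y : Fin q => (β, y) ∈ N₀)) := by
      ext y; simp
    have h2 : (Finset.univ.filter (fun y : Fin q => (β, y) ∈ N₀)) ⊆
        (Finset.univ.filter (fun y : Fin q => (β, y) ∈ N)) := by
      intro y hy
      simp only [Finset.mem_filter, Finset.mem_univ, true_and] at hy ⊢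
      exact h hy
    rw [h1, Finset.cast_card_sdiff h2]
    ring
  rw [Finset.sum_congr rfl (fun β _ => e2 β), ← Finset.sum_div, e1]
  push_cast
  rfl

/-- Killing a cell costs at least `q / 4` picks in it. -/
theorem budget (hq : 0 < q) {N₀ N : Finset (B × Fin q)} (h : N₀ ⊆ N) (A : Finset B)
    (h0 : 1 / 2 ≤ pr N₀ A) (h1 : pr N A < 1 / 4) :
    q ≤ 4 * ((N \ N₀).filter (fun x => x.1 ∈ A)).card := by
  have e1 := prod_sub_le (A := A) (uu N₀) (uu N) (uu_nonneg hq N) (uu_anti h) (uu_le_one N₀)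
  rw [sum_uu_sub hq h A] at e1
  change pr N₀ A - pr N A ≤ _ at e1
  have hq' : (0 : ℝ) < q := by exact_mod_cast hq
  have e2 : (1 / 4 : ℝ) ≤ (((N \ N₀).filter (fun x => x.1 ∈ A)).card : ℝ) / q := by linarith
  rw [le_div_iff₀ hq'] at e2
  have e3 : (q : ℝ) ≤ ((4 * ((N \ N₀).filter (fun x => x.1 ∈ A)).card : ℕ) : ℝ) := by
    push_cast; linarith
  exact_mod_cast e3

end PrBasics

end Pool.Agent.Lib_MP_ba67f2_lc
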