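import Mathlib

/-!
The potential function for the randomized lower bound: masses on binary vectors, and the
one-step inequality.
-/

namespace Pool.Agent.Lib_MP_ba67f2_lc

open Finset

/-! ### The real functions -/

noncomputable def hh (a : ℝ) : ℝ := max (a - 1 / 4) 0

noncomputable def gg (a b : ℝ) : ℝ := min (min (hh a) (hh b)) (1 / 4)

theorem hh_nonneg (a : ℝ) : 0 ≤ hh a := le_max_right _ _

theorem hh_mono {a b : ℝ} (h : a ≤ b) : hh a ≤ hh b := by
  unfold hh; exact max_le_max (by linarith) le_rfl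

theorem hh_le {a : ℝ} (h : 0 ≤ a) : hh a ≤ a := by
  unfold hh; exact max_le (by linarith) h

theorem hh_lip {a b : ℝ} (h : a ≤ b) : hh b ≤ hh a + (b - a) := by
  unfold hh
  apply max_le
  · have := le_max_left (a - 1 / 4) 0; linarith
  · have := le_max_right (a - 1 / 4) 0; linarith

theorem gg_nonneg (a b : ℝ) : 0 ≤ gg a b :=
  le_min (le_min (hh_nonneg a) (hh_nonneg b)) (by norm_num)

theorem gg_comm (a b : ℝ) : gg a b = gg b a := by
  unfold gg; rw [min_comm (hh a) (hh b)]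

theorem gg_mono {a b a' b' : ℝ} (h : a ≤ a') (h' : b ≤ b') : gg a b ≤ gg a' b' := by
  unfold gg
  exact min_le_min (min_le_min (hh_mono h) (hh_mono h')) le_rfl

theorem gg_lip_left {a b a' : ℝ} (h : a ≤ a') : gg a' b ≤ gg a b + (a' - a) := by
  unfold gg
  have h1 := hh_lip h
  have h2 : 0 ≤ a' - a := by linarith
  rw [← min_add_add_right, ← min_add_add_right]
  apply le_min
  · apply le_min
    · exact (min_le_left _ _).trans ((min_le_left _ _).trans h1)
    · exact (min_le_left _ _).trans ((min_le_right _ _).trans (by linarith))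
  · exact (min_le_right _ _).trans (by linarith)

theorem gg_lip {a b a' b' : ℝ} (h : a ≤ a') (h' : b ≤ b') :
    gg a' b' ≤ gg a b + (a' - a) + (b' - b) := by
  have h1 := gg_lip_left (b := b') h
  have h2 := gg_lip_left (a := b) (b := a) (a' := b') h'
  rw [gg_comm b' a, gg_comm b a] at h2
  linarith

theorem gg_le_hh_left (a b : ℝ) : gg a b ≤ hh a := (min_le_left _ _).trans (min_le_left _ _)

theorem gg_half {a b : ℝ} (ha : 1 / 2 ≤ a) (hb : 1 / 2 ≤ b) : 1 / 4 ≤ gg a b := by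
  unfold gg hh
  apply le_min
  · apply le_min
    · exact le_trans (by linarith) (le_max_left _ _)
    · exact le_trans (by linarith) (le_max_left _ _)
  · exact le_rfl

theorem gg_branch {a b : ℝ} (ha : 0 ≤ a) (hb : 0 ≤ b) : gg a b ≤ hh (a + b) - hh a - hh b := by
  unfold gg hh
  rcases le_total a (1 / 4) with h | h <;> rcases le_total b (1 / 4) with h' | h'
  · rw [max_eq_right (by linarith : a - 1 / 4 ≤ 0), max_eq_right (by linarith : b - 1 / 4 ≤ 0)]
    have := le_max_right (a + b - 1 / 4) 0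
    have h2 : min (min (0 : ℝ) 0) (1 / 4) ≤ 0 := (min_le_left _ _).trans (min_le_left _ _)
    linarith
  · rw [max_eq_right (by linarith : a - 1 / 4 ≤ 0), max_eq_left (by linarith : 0 ≤ b - 1 / 4),
      max_eq_left (by linarith : 0 ≤ a + b - 1 / 4)]
    have h2 : min (min (0 : ℝ) (b - 1 / 4)) (1 / 4) ≤ 0 := (min_le_left _ _).trans (min_le_left _ _)
    linarith
  · rw [max_eq_left (by linarith : 0 ≤ a - 1 / 4), max_eq_right (by linarith : b - 1 / 4 ≤ 0),
      max_eq_left (by linarith : 0 ≤ a + b - 1 / 4)]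
    have h2 : min (min (a - 1 / 4) (0 : ℝ)) (1 / 4) ≤ 0 := (min_le_left _ _).trans (min_le_right _ _)
    linarith
  · rw [max_eq_left (by linarith : 0 ≤ a - 1 / 4), max_eq_left (by linarith : 0 ≤ b - 1 / 4),
      max_eq_left (by linarith : 0 ≤ a + b - 1 / 4)]
    have h2 : min (min (a - 1 / 4) (b - 1 / 4)) (1 / 4) ≤ 1 / 4 := min_le_right _ _
    linarith

theorem gg_le_gg_self {a b c : ℝ} (h : a ≤ b) : gg a c ≤ gg b a := by
  unfold gg
  rw [min_eq_right (hh_mono h)]
  exact min_le_min (min_le_left _ _) le_rfl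

theorem four_le {a0 a1 b0 b1 : ℝ} (ha0 : 0 ≤ a0) (ha1 : 0 ≤ a1) (hb0 : 0 ≤ b0) (hb1 : 0 ≤ b1) :
    gg a0 b0 + gg a0 b1 + gg a1 b0 + gg a1 b1 ≤
      gg (a0 + a1) (b0 + b1) + 2 * (gg a0 a1 + gg b0 b1) := by
  have key : ∀ {a0 a1 b0 b1 : ℝ}, 0 ≤ a0 → 0 ≤ a1 → 0 ≤ b0 → 0 ≤ b1 → a1 ≤ a0 → b1 ≤ b0 →
      gg a0 b0 + gg a0 b1 + gg a1 b0 + gg a1 b1 ≤
      gg (a0 + a1) (b0 + b1) + 2 * (gg a0 a1 + gg b0 b1) := by
    intro a0 a1 b0 b1 h0 h1 h2 h3 h4 h5
    have e1 : gg a0 b0 ≤ gg (a0 + a1) (b0 + b1) := gg_mono (by linarith) (by linarith)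
    have e2 : gg a1 b0 ≤ gg a0 a1 := gg_le_gg_self h4
    have e3 : gg a1 b1 ≤ gg a0 a1 := gg_le_gg_self h4
    have e4 : gg a0 b1 ≤ gg b0 b1 := by rw [gg_comm a0 b1]; exact gg_le_gg_self h5
    have e5 := gg_nonneg b0 b1
    linarith
  rcases le_total a1 a0 with h | h <;> rcases le_total b1 b0 with h' | h'
  · exact key ha0 ha1 hb0 hb1 h h'
  · have := key ha0 ha1 hb1 hb0 h h'
    rw [gg_comm b1 b0, add_comm b1 b0] at this
    linarith
  · have := key ha1 ha0 hb0 hb1 h h'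
    rw [gg_comm a1 a0, add_comm a1 a0] at this
    linarith
  · have := key ha1 ha0 hb1 hb0 h h'
    rw [gg_comm a1 a0, add_comm a1 a0, gg_comm b1 b0, add_comm b1 b0] at this
    linarith

/-! ### Binary vectors and masses -/

/-- binary vectors -/
abbrev VV (n : ℕ) := Fin n → ZMod 2

/-- unit vector -/
def dl (n d : ℕ) : VV n := fun i => if i.val = d then 1 else 0

theorem vv_add_self {n : ℕ} (v : VV n) : v + v = 0 := by
  funext i
  exact CharTwo.add_self_eq_zero (v i)

theorem vv_add_cancel {n : ℕ} (w v : VV n) : w + v + v = w := by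
  rw [add_assoc, vv_add_self, add_zero]

theorem zmod2_ne {a b : ZMod 2} (h : a ≠ b) : a = b + 1 := by
  revert a b; decide

/-- `w` and `w'` agree on the first `d` coordinates -/
def Agr {n : ℕ} (d : ℕ) (w w' : VV n) : Prop := ∀ i : Fin n, i.val < d → w i = w' i

instance {n d : ℕ} (w w' : VV n) : Decidable (Agr d w w') := by unfold Agr; infer_instance

theorem Agr.symm {n d : ℕ} {w w' : VV n} (h : Agr d w w') : Agr d w' w := fun i hi => (h i hi).symm

theorem Agr.trans {n d : ℕ} {w w' w'' : VV n} (h : Agr d w w') (h' : Agr d w' w'') :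
    Agr d w w'' := fun i hi => (h i hi).trans (h' i hi)

theorem Agr.rfl' {n d : ℕ} {w : VV n} : Agr d w w := fun _ _ => rfl

theorem Agr.mono {n d e : ℕ} {w w' : VV n} (h : Agr d w w') (hed : e ≤ d) : Agr e w w' :=
  fun i hi => h i (by omega)

theorem Agr.add {n d : ℕ} {w w' v : VV n} (h : Agr d w w') : Agr d (w + v) (w' + v) :=
  fun i hi => by simp [h i hi]

theorem agr_add_zero {n d : ℕ} {w v : VV n} (h : ∀ i : Fin n, i.val < d → v i = 0) :
    Agr d (w + v) w := fun i hi => by simp [h i hi]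

theorem dl_zero {n d e : ℕ} (h : e ≤ d) : ∀ i : Fin n, i.val < e → dl n d i = 0 := by
  intro i hi
  unfold dl
  rw [if_neg (by omega)]

/-- mass of the cell of depth `d` containing `w` -/
noncomputable def mass {n : ℕ} (f : VV n → ℝ) (d : ℕ) (w : VV n) : ℝ :=
  ∑ β ∈ univ.filter (fun β => Agr d β w), f β

theorem mass_congr {n : ℕ} (f : VV n → ℝ) {d : ℕ} {w w' : VV n} (h : Agr d w w') :
    mass f d w = mass f d w' := by
  unfold mass
  apply Finset.sum_congr _ (fun _ _ => rfl)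
  ext β
  simp only [mem_filter, mem_univ, true_and]
  exact ⟨fun h1 => h1.trans h, fun h1 => h1.trans h.symm⟩

theorem mass_nonneg {n : ℕ} {f : VV n → ℝ} (hf : ∀ β, 0 ≤ f β) (d : ℕ) (w : VV n) :
    0 ≤ mass f d w := Finset.sum_nonneg (fun β _ => hf β)

theorem mass_mono {n : ℕ} {f f' : VV n → ℝ} (hf : ∀ β, f β ≤ f' β) (d : ℕ) (w : VV n) :
    mass f d w ≤ mass f' d w := Finset.sum_le_sum (fun β _ => hf β)

theorem mass_full {n : ℕ} (f : VV n → ℝ) (w : VV n) : mass f n w = f w := by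
  unfold mass
  have : univ.filter (fun β => Agr n β w) = {w} := by
    ext β
    simp only [mem_filter, mem_univ, true_and, mem_singleton]
    constructor
    · intro h; funext i; exact h i i.2
    · rintro rfl; exact Agr.rfl'
  rw [this, sum_singleton]

theorem mass_split {n : ℕ} (f : VV n → ℝ) {d : ℕ} (hd : d < n) (w : VV n) :
    mass f d w = mass f (d + 1) w + mass f (d + 1) (w + dl n d) := by
  unfold mass
  rw [← sum_union]
  · apply Finset.sum_congr _ (fun _ _ => rfl)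
    ext β
    simp only [mem_filter, mem_univ, true_and, mem_union]
    constructor
    · intro h
      by_cases h1 : β ⟨d, hd⟩ = w ⟨d, hd⟩
      · left
        intro i hi
        by_cases h2 : i.val = d
        · have : i = ⟨d, hd⟩ := Fin.ext h2
          rw [this]; exact h1
        · exact h i (by omega)
      · right
        intro i hi
        by_cases h2 : i.val = d
        · have : i = ⟨d, hd⟩ := Fin.ext h2
          rw [this]
          simp only [Pi.add_apply, dl, if_true]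
          exact zmod2_ne h1
        · simp only [Pi.add_apply, dl, if_neg h2, add_zero]
          exact h i (by omega)
    · rintro (h | h)
      · exact h.mono (by omega)
      · intro i hi
        have := h i (by omega)
        rw [this]
        simp only [Pi.add_apply, dl, if_neg (by omega : ¬ i.val = d), add_zero]
  · rw [disjoint_left]
    intro β h1 h2
    simp only [mem_filter, mem_univ, true_and] at h1 h2
    have e1 := h1 ⟨d, hd⟩ (by simp)
    have e2 := h2 ⟨d, hd⟩ (by simp)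
    rw [e1] at e2
    simp [dl] at e2

/-- all vectors agreeing with `w0` on the first `e` coordinates -/
def UU {n : ℕ} (e : ℕ) (w0 : VV n) : Finset (VV n) := univ.filter (fun β => Agr e β w0)

theorem mem_UU {n e : ℕ} {w0 w : VV n} : w ∈ UU e w0 ↔ Agr e w w0 := by simp [UU]

theorem UU_congr {n e : ℕ} {w0 w1 : VV n} (h : Agr e w0 w1) : UU e w0 = UU e w1 := by
  ext w
  rw [mem_UU, mem_UU]
  exact ⟨fun h1 => h1.trans h, fun h1 => h1.trans h.symm⟩

theorem mass_eq_sum_UU {n : ℕ} (f : VV n → ℝ) (e : ℕ) (w0 : VV n) :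
    mass f e w0 = ∑ β ∈ UU e w0, f β := rfl

theorem sum_UU_shift {n e : ℕ} (w0 v : VV n) (hv : ∀ i : Fin n, i.val < e → v i = 0)
    (F : VV n → ℝ) : ∑ w ∈ UU e w0, F (w + v) = ∑ w ∈ UU e w0, F w := by
  apply Finset.sum_nbij' (fun w => w + v) (fun w => w + v)
  · intro w hw
    rw [mem_UU] at hw ⊢
    exact (agr_add_zero hv).trans hw
  · intro w hw
    rw [mem_UU] at hw ⊢
    exact (agr_add_zero hv).trans hw
  · intro w _; exact vv_add_cancel w v
  · intro w _; exact vv_add_cancel w v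
  · intro w _; rfl

/-- the pair potential -/
noncomputable def PP {n : ℕ} (f f' : VV n → ℝ) (e d : ℕ) (w0 r : VV n) : ℝ :=
  (2 : ℝ) ^ d / 2 ^ n * ∑ w ∈ UU e w0, gg (mass f d w) (mass f' d (w + r))

/-- the branching potential -/
noncomputable def HH {n : ℕ} (f : VV n → ℝ) (e d : ℕ) (w0 : VV n) : ℝ :=
  (2 : ℝ) ^ d / 2 ^ n * ∑ w ∈ UU e w0, hh (mass f d w)

theorem PP_nonneg {n : ℕ} (f f' : VV n → ℝ) (e d : ℕ) (w0 r : VV n) : 0 ≤ PP f f' e d w0 r := by
  unfold PP
  have : 0 ≤ ∑ w ∈ UU e w0, gg (mass f d w) (mass f' d (w + r)) :=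
    Finset.sum_nonneg (fun _ _ => gg_nonneg _ _)
  positivity

theorem HH_nonneg {n : ℕ} (f : VV n → ℝ) (e d : ℕ) (w0 : VV n) : 0 ≤ HH f e d w0 := by
  unfold HH
  have : 0 ≤ ∑ w ∈ UU e w0, hh (mass f d w) := Finset.sum_nonneg (fun _ _ => hh_nonneg _)
  positivity

theorem tot_eq {n : ℕ} (f : VV n → ℝ) {e : ℕ} (w0 : VV n) : ∀ {d : ℕ}, e ≤ d → d ≤ n →
    (2 : ℝ) ^ d / 2 ^ n * ∑ w ∈ UU e w0, mass f d w = mass f e w0 := by
  intro d hed hdn
  obtain ⟨k, hk⟩ := Nat.exists_eq_add_of_le hdn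
  induction k generalizing d with
  | zero =>
    have hd : d = n := by omega
    subst hd
    rw [div_self (by positivity), one_mul, mass_eq_sum_UU]
    exact Finset.sum_congr rfl (fun w _ => mass_full f w)
  | succ k ih =>
    have h1 := ih (d := d + 1) (by omega) (by omega) (by omega)
    have h2 : ∑ w ∈ UU e w0, mass f d w = 2 * ∑ w ∈ UU e w0, mass f (d + 1) w := by
      rw [Finset.sum_congr rfl (fun w _ => mass_split f (by omega) w), Finset.sum_add_distrib,
        sum_UU_shift w0 (dl n d) (dl_zero hed) (fun w => mass f (d + 1) w)]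
      ring
    rw [h2, ← h1, pow_succ]
    ring

theorem one_step {n : ℕ} {f f' : VV n → ℝ} (hf : ∀ β, 0 ≤ f β) (hf' : ∀ β, 0 ≤ f' β)
    {e d : ℕ} (hed : e ≤ d) (hdn : d < n) (w0 r : VV n) (hr : ∀ i : Fin n, i.val < e → r i = 0) :
    PP f f' e (d + 1) w0 r + PP f f' e (d + 1) w0 (r + dl n d) +
      2 * (HH f e (d + 1) w0 + HH f' e (d + 1) w0) ≤
    PP f f' e d w0 r + 2 * (HH f e d w0 + HH f' e d w0) := by
  set α : VV n → ℝ := fun w => mass f (d + 1) w with hα
  set β : VV n → ℝ := fun w => mass f' (d + 1) w with hβ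
  have hα0 : ∀ w, 0 ≤ α w := fun w => mass_nonneg hf _ _
  have hβ0 : ∀ w, 0 ≤ β w := fun w => mass_nonneg hf' _ _
  set δ := dl n d with hδ
  have hδz : ∀ i : Fin n, i.val < e → δ i = 0 := dl_zero hed
  have hfs : ∀ w, mass f d w = α w + α (w + δ) := fun w => mass_split f hdn w
  have hfs' : ∀ w, mass f' d w = β w + β (w + δ) := fun w => mass_split f' hdn w
  set c : ℝ := (2 : ℝ) ^ d / 2 ^ n with hc
  have hc0 : 0 ≤ c := by rw [hc]; positivity
  have hc1 : (2 : ℝ) ^ (d + 1) / 2 ^ n = 2 * c := by rw [hc, pow_succ]; ring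
  -- the sums
  set S1 := ∑ w ∈ UU e w0, gg (α w) (β (w + r)) with hS1
  set S2 := ∑ w ∈ UU e w0, gg (α w) (β (w + (r + δ))) with hS2
  set Ba := ∑ w ∈ UU e w0, gg (α w) (α (w + δ)) with hBa
  set Bb := ∑ w ∈ UU e w0, gg (β w) (β (w + δ)) with hBb
  set G := ∑ w ∈ UU e w0, gg (mass f d w) (mass f' d (w + r)) with hG
  have hS1' : S1 = ∑ w ∈ UU e w0, gg (α (w + δ)) (β (w + r + δ)) := by
    rw [hS1, ← sum_UU_shift w0 δ hδz (fun w => gg (α w) (β (w + r)))]
    apply Finset.sum_congr rfl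
    intro w _
    rw [add_right_comm]
  have hS2' : S2 = ∑ w ∈ UU e w0, gg (α (w + δ)) (β (w + r)) := by
    rw [hS2, ← sum_UU_shift w0 δ hδz (fun w => gg (α w) (β (w + (r + δ))))]
    apply Finset.sum_congr rfl
    intro w _
    congr 2
    rw [add_assoc w δ (r + δ), add_comm r δ, ← add_assoc δ δ r, vv_add_self, zero_add]
  have hBb' : Bb = ∑ w ∈ UU e w0, gg (β (w + r)) (β (w + r + δ)) := by
    rw [hBb, ← sum_UU_shift w0 r hr (fun w => gg (β w) (β (w + δ)))]
  have h1 : 2 * (S1 + S2) ≤ G + 2 * (Ba + Bb) := by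
    have : 2 * (S1 + S2) = ∑ w ∈ UU e w0, (gg (α w) (β (w + r)) + gg (α w) (β (w + r + δ)) +
        gg (α (w + δ)) (β (w + r)) + gg (α (w + δ)) (β (w + r + δ))) := by
      rw [Finset.sum_add_distrib, Finset.sum_add_distrib, Finset.sum_add_distrib, ← hS1',
        ← hS2', ← hS1]
      have : ∑ w ∈ UU e w0, gg (α w) (β (w + r + δ)) = S2 := by
        rw [hS2]
        apply Finset.sum_congr rfl
        intro w _
        rw [add_assoc]
      rw [this]; ring
    rw [this, hG, hBa, hBb', ← Finset.sum_add_distrib, Finset.mul_sum, ← Finset.sum_add_distrib]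
    apply Finset.sum_le_sum
    intro w _
    rw [hfs w, hfs' (w + r)]
    exact four_le (hα0 _) (hα0 _) (hβ0 _) (hβ0 _)
  have h2 : 2 * ∑ w ∈ UU e w0, hh (α w) ≤ ∑ w ∈ UU e w0, hh (mass f d w) - Ba := by
    have : 2 * ∑ w ∈ UU e w0, hh (α w) = ∑ w ∈ UU e w0, (hh (α w) + hh (α (w + δ))) := by
      rw [Finset.sum_add_distrib, sum_UU_shift w0 δ hδz (fun w => hh (α w))]; ring
    rw [this, hBa, ← Finset.sum_sub_distrib]
    apply Finset.sum_le_sum
    intro w _
    rw [hfs w]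
    have := gg_branch (hα0 w) (hα0 (w + δ))
    linarith
  have h3 : 2 * ∑ w ∈ UU e w0, hh (β w) ≤ ∑ w ∈ UU e w0, hh (mass f' d w) - Bb := by
    have : 2 * ∑ w ∈ UU e w0, hh (β w) = ∑ w ∈ UU e w0, (hh (β w) + hh (β (w + δ))) := by
      rw [Finset.sum_add_distrib, sum_UU_shift w0 δ hδz (fun w => hh (β w))]; ring
    rw [this, hBb, ← Finset.sum_sub_distrib]
    apply Finset.sum_le_sum
    intro w _
    rw [hfs' w]
    have := gg_branch (hβ0 w) (hβ0 (w + δ))
    linarith
  unfold PP HH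
  rw [hc1]
  change 2 * c * S1 + 2 * c * S2 + 2 * (2 * c * ∑ w ∈ UU e w0, hh (α w) +
    2 * c * ∑ w ∈ UU e w0, hh (β w)) ≤ c * G + 2 * (c * ∑ w ∈ UU e w0, hh (mass f d w) +
    c * ∑ w ∈ UU e w0, hh (mass f' d w))
  have h4 := mul_le_mul_of_nonneg_left h1 hc0
  have h5 := mul_le_mul_of_nonneg_left h2 hc0
  have h6 := mul_le_mul_of_nonneg_left h3 hc0
  nlinarith

theorem PP_lip {n : ℕ} {f f' g g' : VV n → ℝ} (hf : ∀ β, f β ≤ g β) (hf' : ∀ β, f' β ≤ g' β)
    {e d : ℕ} (hed : e ≤ d) (hdn : d ≤ n) (w0 r : VV n) (hr : ∀ i : Fin n, i.val < e → r i = 0) :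
    PP g g' e d w0 r ≤ PP f f' e d w0 r + (mass g e w0 - mass f e w0) +
      (mass g' e w0 - mass f' e w0) := by
  unfold PP
  set c : ℝ := (2 : ℝ) ^ d / 2 ^ n with hc
  have hc0 : 0 ≤ c := by rw [hc]; positivity
  rw [← tot_eq g w0 hed hdn, ← tot_eq f w0 hed hdn, ← tot_eq g' w0 hed hdn,
    ← tot_eq f' w0 hed hdn, ← hc]
  rw [← sum_UU_shift w0 r hr (fun w => mass g' d w), ← sum_UU_shift w0 r hr (fun w => mass f' d w)]
  have : ∑ w ∈ UU e w0, gg (mass g d w) (mass g' d (w + r)) ≤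
      ∑ w ∈ UU e w0, (gg (mass f d w) (mass f' d (w + r)) + (mass g d w - mass f d w) +
        (mass g' d (w + r) - mass f' d (w + r))) := by
    apply Finset.sum_le_sum
    intro w _
    exact gg_lip (mass_mono hf _ _) (mass_mono hf' _ _)
  rw [Finset.sum_add_distrib, Finset.sum_add_distrib, Finset.sum_sub_distrib,
    Finset.sum_sub_distrib] at this
  have h := mul_le_mul_of_nonneg_left this hc0
  nlinarith

theorem HH_lip {n : ℕ} {f g : VV n → ℝ} (hf : ∀ β, f β ≤ g β)
    {e d : ℕ} (hed : e ≤ d) (hdn : d ≤ n) (w0 : VV n) :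
    HH g e d w0 ≤ HH f e d w0 + (mass g e w0 - mass f e w0) := by
  unfold HH
  set c : ℝ := (2 : ℝ) ^ d / 2 ^ n with hc
  have hc0 : 0 ≤ c := by rw [hc]; positivity
  rw [← tot_eq g w0 hed hdn, ← tot_eq f w0 hed hdn, ← hc]
  have : ∑ w ∈ UU e w0, hh (mass g d w) ≤
      ∑ w ∈ UU e w0, (hh (mass f d w) + (mass g d w - mass f d w)) := by
    apply Finset.sum_le_sum
    intro w _
    exact hh_lip (mass_mono hf _ _)
  rw [Finset.sum_add_distrib, Finset.sum_sub_distrib] at this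
  have h := mul_le_mul_of_nonneg_left this hc0
  nlinarith

theorem HH_le {n : ℕ} {f : VV n → ℝ} (hf : ∀ β, 0 ≤ f β)
    {e d : ℕ} (hed : e ≤ d) (hdn : d ≤ n) (w0 : VV n) : HH f e d w0 ≤ mass f e w0 := by
  unfold HH
  rw [← tot_eq f w0 hed hdn]
  apply mul_le_mul_of_nonneg_left _ (by positivity)
  exact Finset.sum_le_sum (fun w _ => hh_le (mass_nonneg hf _ _))

theorem PP_le {n : ℕ} {f f' : VV n → ℝ} (hf : ∀ β, 0 ≤ f β)
    {e d : ℕ} (hed : e ≤ d) (hdn : d ≤ n) (w0 r : VV n) : PP f f' e d w0 r ≤ mass f e w0 := by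
  refine le_trans ?_ (HH_le hf hed hdn w0)
  unfold PP HH
  apply mul_le_mul_of_nonneg_left _ (by positivity)
  exact Finset.sum_le_sum (fun w _ => gg_le_hh_left _ _)

theorem card_cell {n : ℕ} {d : ℕ} (hdn : d ≤ n) (w : VV n) :
    ((univ.filter (fun β => Agr d β w)).card : ℝ) = 2 ^ n / 2 ^ d := by
  have h := tot_eq (fun _ => (1 : ℝ)) (e := 0) w (Nat.zero_le d) hdn
  -- all cells of depth `d` have the same cardinality, so use the split directly
  clear h
  obtain ⟨k, hk⟩ := Nat.exists_eq_add_of_le hdn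
  have key : ∀ (k d : ℕ) (w : VV n), n = d + k → mass (fun _ => (1 : ℝ)) d w = 2 ^ k := by
    intro k
    induction k with
    | zero =>
      intro d w hd
      have : d = n := by omega
      subst this
      rw [mass_full]; simp
    | succ k ih =>
      intro d w hd
      rw [mass_split _ (by omega), ih (d + 1) _ (by omega), ih (d + 1) _ (by omega)]
      ring
  have h1 := key k d w hk
  have h2 : mass (fun _ => (1 : ℝ)) d w = ((univ.filter (fun β => Agr d β w)).card : ℝ) := by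
    unfold mass; simp
  rw [← h2, h1]
  have : (2 : ℝ) ^ n = 2 ^ d * 2 ^ k := by rw [← pow_add, ← hk]
  rw [this]
  field_simp

/-- a matched heavy pair forces the potential to be at least `1/4` -/
theorem PP_ge {n : ℕ} {f f' : VV n → ℝ} {e d : ℕ} (hed : e ≤ d) (hdn : d ≤ n) (w0 r w : VV n)
    (hw : Agr e w w0) (h1 : 1 / 2 ≤ mass f d w) (h2 : 1 / 2 ≤ mass f' d (w + r)) :
    1 / 4 ≤ PP f f' e d w0 r := by
  unfold PP
  have hsub : univ.filter (fun β => Agr d β w) ⊆ UU e w0 := by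
    intro β hβ
    rw [mem_filter] at hβ
    rw [mem_UU]
    exact (hβ.2.mono hed).trans hw
  have h3 : ∑ β ∈ univ.filter (fun β => Agr d β w), (1 / 4 : ℝ) ≤
      ∑ w ∈ UU e w0, gg (mass f d w) (mass f' d (w + r)) := by
    refine le_trans ?_ (Finset.sum_le_sum_of_subset_of_nonneg hsub (fun _ _ _ => gg_nonneg _ _))
    apply Finset.sum_le_sum
    intro β hβ
    rw [mem_filter] at hβ
    apply gg_half
    · rw [mass_congr f hβ.2]; exact h1
    · rw [mass_congr f' (hβ.2.add (v := r))]; exact h2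
  rw [Finset.sum_const, nsmul_eq_mul, card_cell hdn] at h3
  calc (1 / 4 : ℝ) = (2 : ℝ) ^ d / 2 ^ n * (2 ^ n / 2 ^ d * (1 / 4)) := by field_simp
    _ ≤ _ := mul_le_mul_of_nonneg_left h3 (by positivity)

end Pool.Agent.Lib_MP_ba67f2_lc
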