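import Mathlib
import Pool.Agent.Lib_MP_ba67f2_lc.Prob

/-!
Universal families of two-colourings.
-/

namespace Pool.Agent.Lib_MP_ba67f2_lc

theorem count_prescribed {V : Type} [Fintype V] [DecidableEq V] (S : Finset V) (f : V → Bool)
    (k : ℕ) (hS : S.card ≤ k) :
    ((Finset.univ.filter (fun z : V → Bool => ¬ ∀ v ∈ S, z v = f v)).card : ℝ) ≤
      (Fintype.card (V → Bool) : ℝ) * (1 - (1 / 2 : ℝ) ^ k) := by
  classical
  have h1 := Finset.card_filter_add_card_filter_not (s := (Finset.univ : Finset (V → Bool)))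
        (fun z : V → Bool => ∀ v ∈ S, z v = f v)
  rw [Finset.card_univ] at h1
  have h2 : ((Finset.univ.filter (fun z : V → Bool => ∀ v ∈ S, z v = f v)).card : ℝ) +
    ((Finset.univ.filter (fun z : V → Bool => ¬ ∀ v ∈ S, z v = f v)).card : ℝ) =
      (Fintype.card (V → Bool) : ℝ) := by exact_mod_cast h1
  have e : Finset.univ.filter (fun z : V → Bool => ∀ v ∈ S, z v = f v) =
      Fintype.piFinset (fun v => if v ∈ S then {f v} else Finset.univ) := by
    ext z
    simp only [Finset.mem_filter, Finset.mem_univ, true_and, Fintype.mem_piFinset]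
    constructor
    · intro h v
      by_cases hv : v ∈ S
      · simp [hv, h v hv]
      · simp [hv]
    · intro h v hv
      have := h v
      simpa [hv] using this
  have h3 : (Fintype.card (V → Bool) : ℝ) * (1 / 2 : ℝ) ^ k ≤
      ((Finset.univ.filter (fun z : V → Bool => ∀ v ∈ S, z v = f v)).card : ℝ) := by
    rw [e, Fintype.card_piFinset]
    push_cast
    have e2 : ∀ v : V, ((if v ∈ S then {f v} else Finset.univ : Finset Bool).card : ℝ) =
        2 * (if v ∈ S then (1 / 2 : ℝ) else 1) := by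
      intro v
      split_ifs <;> simp
    rw [Finset.prod_congr rfl (fun v _ => e2 v), Finset.prod_mul_distrib, Finset.prod_const,
      Finset.card_univ, Finset.prod_ite_mem, Finset.univ_inter, Finset.prod_const,
      Fintype.card_fun, Fintype.card_bool]
    push_cast
    apply mul_le_mul_of_nonneg_left _ (by positivity)
    exact pow_le_pow_of_le_one (by norm_num) (by norm_num) hS
  linarith

theorem exists_universal {V : Type} [Fintype V] [DecidableEq V] [Nonempty V] (k Z : ℕ)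
    (h : ((2 * Fintype.card V : ℕ) : ℝ) ^ k * (1 - (1 / 2 : ℝ) ^ k) ^ Z < 1) :
    ∃ 𝒵 : Fin Z → (V → Bool), ∀ A : Finset V, A.card ≤ k → ∀ f : V → Bool,
      ∃ j, ∀ a ∈ A, 𝒵 j a = f a := by
  classical
  by_contra hcon
  push Not at hcon
  obtain ⟨v0⟩ := (inferInstance : Nonempty V)
  let T := Finset.univ.filter (fun t : Fin k → V × Bool => ∃ f : V → Bool, ∀ i, (t i).2 = f (t i).1)
  let Bad : (Fin k → V × Bool) → Finset (Fin Z → (V → Bool)) := fun t =>
    Finset.univ.filter (fun 𝒵 => ∀ j ∈ (Finset.univ : Finset (Fin Z)), 𝒵 j ∈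
      Finset.univ.filter (fun z : V → Bool => ¬ ∀ v ∈ Finset.univ.image (fun i => (t i).1),
        z v = (if h : ∃ i, (t i).1 = v then (t h.choose).2 else false)))
  have hcov : (Finset.univ : Finset (Fin Z → (V → Bool))) ⊆ T.biUnion Bad := by
    intro 𝒵 _
    obtain ⟨A, hA, f, hf⟩ := hcon 𝒵
    let u : Fin k → V := fun i => if h : i.val < A.toList.length then A.toList[i.val] else v0
    have hu : ∀ a ∈ A, ∃ i, u i = a := by
      intro a ha
      obtain ⟨i, hi, hia⟩ := List.getElem_of_mem (Finset.mem_toList.mpr ha)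
      have hik : i < k := by
        rw [Finset.length_toList] at hi; omega
      refine ⟨⟨i, hik⟩, ?_⟩
      simp only [u, dif_pos hi]
      exact hia
    rw [Finset.mem_biUnion]
    refine ⟨fun i => (u i, f (u i)), ?_, ?_⟩
    · simp only [T, Finset.mem_filter, Finset.mem_univ, true_and]
      exact ⟨f, fun i => rfl⟩
    · simp only [Bad, Finset.mem_filter, Finset.mem_univ, true_and, true_implies]
      intro j hj
      obtain ⟨a, ha, hne⟩ := hf j
      apply hne
      obtain ⟨i, hi⟩ := hu a ha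
      have h1 := hj a (Finset.mem_image.mpr ⟨i, Finset.mem_univ _, hi⟩)
      rw [h1]
      have hex : ∃ i, (u i, f (u i)).1 = a := ⟨i, hi⟩
      rw [dif_pos hex]
      have := hex.choose_spec
      simp only at this ⊢
      rw [this]
  have hcard := (Finset.card_le_card hcov).trans Finset.card_biUnion_le
  rw [Finset.card_univ] at hcard
  have hW : (0 : ℝ) < (Fintype.card (Fin Z → (V → Bool)) : ℝ) := by
    have : 0 < Fintype.card (Fin Z → (V → Bool)) := Fintype.card_pos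
    exact_mod_cast this
  have hWe : (Fintype.card (Fin Z → (V → Bool)) : ℝ) =
      (Fintype.card (V → Bool) : ℝ) ^ (Fintype.card (Fin Z)) := by
    rw [Fintype.card_fun (α := Fin Z)]; push_cast; rfl
  have hθ : (0 : ℝ) ≤ 1 - (1 / 2 : ℝ) ^ k := by
    have : (1 / 2 : ℝ) ^ k ≤ 1 := pow_le_one₀ (by norm_num) (by norm_num)
    linarith
  have hbad : ∀ t ∈ T, ((Bad t).card : ℝ) ≤
      (Fintype.card (Fin Z → (V → Bool)) : ℝ) * (1 - (1 / 2 : ℝ) ^ k) ^ Z := by
    intro t _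
    have h1 := count_prescribed (Finset.univ.image (fun i => (t i).1))
      (fun v => if h : ∃ i, (t i).1 = v then (t h.choose).2 else false) k
      (Finset.card_image_le.trans (by simp))
    have h2 := count_indep (ι := Fin Z) Finset.univ _ _ h1
    rw [Finset.card_univ, ← hWe, Fintype.card_fin] at h2
    refine le_trans (le_of_eq ?_) h2
    congr 1
    apply congrArg
    ext ω
    simp [Bad]
  have h3 : (Fintype.card (Fin Z → (V → Bool)) : ℝ) ≤
      ((2 * Fintype.card V : ℕ) : ℝ) ^ k *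
        ((Fintype.card (Fin Z → (V → Bool)) : ℝ) * (1 - (1 / 2 : ℝ) ^ k) ^ Z) := by
    calc (Fintype.card (Fin Z → (V → Bool)) : ℝ) ≤ ((∑ t ∈ T, (Bad t).card : ℕ) : ℝ) := by
          exact_mod_cast hcard
      _ = ∑ t ∈ T, ((Bad t).card : ℝ) := by push_cast; rfl
      _ ≤ ∑ t ∈ T, (Fintype.card (Fin Z → (V → Bool)) : ℝ) * (1 - (1 / 2 : ℝ) ^ k) ^ Z :=
          Finset.sum_le_sum hbad
      _ = T.card * ((Fintype.card (Fin Z → (V → Bool)) : ℝ) * (1 - (1 / 2 : ℝ) ^ k) ^ Z) := by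
          rw [Finset.sum_const, nsmul_eq_mul]
      _ ≤ _ := by
          apply mul_le_mul_of_nonneg_right _ (by positivity)
          have : T.card ≤ (2 * Fintype.card V) ^ k := by
            refine (Finset.card_filter_le _ _).trans ?_
            rw [Finset.card_univ, Fintype.card_fun, Fintype.card_prod, Fintype.card_bool,
              Fintype.card_fin, mul_comm]
          exact_mod_cast this
  have h4 : ((2 * Fintype.card V : ℕ) : ℝ) ^ k *
        ((Fintype.card (Fin Z → (V → Bool)) : ℝ) * (1 - (1 / 2 : ℝ) ^ k) ^ Z) <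
        (Fintype.card (Fin Z → (V → Bool)) : ℝ) := by
    calc _ = (Fintype.card (Fin Z → (V → Bool)) : ℝ) *
          (((2 * Fintype.card V : ℕ) : ℝ) ^ k * (1 - (1 / 2 : ℝ) ^ k) ^ Z) := by ring
      _ < (Fintype.card (Fin Z → (V → Bool)) : ℝ) * 1 := by
          exact mul_lt_mul_of_pos_left h hW
      _ = _ := by ring
  linarith

theorem four_sq_lt {m : ℕ} (hm : 4 ≤ m) : 4 * m ^ 2 + 2 * m + 1 < 4 ^ m := by
  induction m, hm using Nat.le_induction with
  | base => norm_num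
  | succ n hn ih =>
    have e : 4 ^ (n + 1) = 4 * 4 ^ n := by ring
    rw [e]; nlinarith

theorem numeric_U {m : ℕ} (hm : 4 ≤ m) {c : ℕ} (hc : c = 2 ^ (2 * m)) :
    ((2 * c : ℕ) : ℝ) ^ (2 * m) * (1 - (1 / 2 : ℝ) ^ (2 * m)) ^ (2 ^ (4 * m)) < 1 := by
  have e0 : (2 : ℝ) ≤ Real.exp 1 := by
    have := Real.add_one_le_exp (1 : ℝ); linarith
  have h1 : ((2 * c : ℕ) : ℝ) ^ (2 * m) ≤ Real.exp ((4 * m ^ 2 + 2 * m : ℕ) : ℝ) := by
    have : (2 * c) ^ (2 * m) = 2 ^ (4 * m ^ 2 + 2 * m) := by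
      rw [hc]
      have : 2 * 2 ^ (2 * m) = 2 ^ (2 * m + 1) := by rw [pow_succ]; ring
      rw [this, ← pow_mul]; congr 1; ring
    have h2 : ((2 * c : ℕ) : ℝ) ^ (2 * m) = (2 : ℝ) ^ (4 * m ^ 2 + 2 * m) := by exact_mod_cast this
    rw [h2]
    calc (2 : ℝ) ^ (4 * m ^ 2 + 2 * m) ≤ (Real.exp 1) ^ (4 * m ^ 2 + 2 * m) :=
          pow_le_pow_left₀ (by norm_num) e0 _
      _ = _ := by rw [← Real.exp_nat_mul, mul_one]
  have hle : (1 / 2 : ℝ) ^ (2 * m) ≤ 1 := pow_le_one₀ (by norm_num) (by norm_num)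
  have h2 : (1 - (1 / 2 : ℝ) ^ (2 * m)) ^ (2 ^ (4 * m)) ≤ Real.exp (-((4 ^ m : ℕ) : ℝ)) := by
    have e3 : 1 - (1 / 2 : ℝ) ^ (2 * m) ≤ Real.exp (-(1 / 2 : ℝ) ^ (2 * m)) := by
      have := Real.add_one_le_exp (-(1 / 2 : ℝ) ^ (2 * m)); linarith
    calc (1 - (1 / 2 : ℝ) ^ (2 * m)) ^ (2 ^ (4 * m))
        ≤ (Real.exp (-(1 / 2 : ℝ) ^ (2 * m))) ^ (2 ^ (4 * m)) :=
          pow_le_pow_left₀ (by linarith) e3 _
      _ = Real.exp (((2 ^ (4 * m) : ℕ) : ℝ) * (-(1 / 2 : ℝ) ^ (2 * m))) := by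
          rw [← Real.exp_nat_mul]
      _ = _ := by
          congr 1
          push_cast
          have h5 : (2 : ℝ) ^ (4 * m) = 4 ^ m * 2 ^ (2 * m) := by
            have : (4 : ℝ) ^ m = 2 ^ (2 * m) := by rw [pow_mul]; norm_num
            rw [this, ← pow_add]; congr 1; ring
          rw [h5]
          have h4 : (2 : ℝ) ^ (2 * m) * (1 / 2) ^ (2 * m) = 1 := by rw [← mul_pow]; norm_num
          linear_combination (-(4 : ℝ) ^ m) * h4
  have hpos : (0 : ℝ) ≤ (1 - (1 / 2 : ℝ) ^ (2 * m)) ^ (2 ^ (4 * m)) := by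
    have : 0 ≤ 1 - (1 / 2 : ℝ) ^ (2 * m) := by linarith
    positivity
  calc ((2 * c : ℕ) : ℝ) ^ (2 * m) * (1 - (1 / 2 : ℝ) ^ (2 * m)) ^ (2 ^ (4 * m))
      ≤ Real.exp ((4 * m ^ 2 + 2 * m : ℕ) : ℝ) * Real.exp (-((4 ^ m : ℕ) : ℝ)) :=
        mul_le_mul h1 h2 hpos (Real.exp_pos _).le
    _ = Real.exp (((4 * m ^ 2 + 2 * m : ℕ) : ℝ) + -((4 ^ m : ℕ) : ℝ)) := by rw [Real.exp_add]
    _ < 1 := by
        rw [Real.exp_lt_one_iff]
        have h6 : ((4 * m ^ 2 + 2 * m : ℕ) : ℝ) + 1 < ((4 ^ m : ℕ) : ℝ) := by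
          exact_mod_cast four_sq_lt hm
        linarith

end Pool.Agent.Lib_MP_ba67f2_lc
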