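import Mathlib
import Pool.Agent.Lib_MP_ba67f2_lc.Basics
import Pool.Agent.Lib_MP_ba67f2_lc.Pot
import Pool.Agent.Lib_MP_ba67f2_lc.Univ

/-!
Patterns, and the statement that a set of picks without a matched heavy pair and with small
mass misses some request.
-/

namespace Pool.Agent.Lib_MP_ba67f2_lc

open Finset

/-- truncation -/
def trn {n : ℕ} (d : ℕ) (w : VV n) : VV n := fun i => if i.val < d then w i else 0

theorem agr_trn {n d : ℕ} (w : VV n) : Agr d (trn d w) w := by
  intro i hi; simp [trn, hi]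

theorem trn_congr {n d : ℕ} {w w' : VV n} (h : Agr d w w') : trn d w = trn d w' := by
  funext i
  unfold trn
  split_ifs with hi
  · exact h i hi
  · rfl

theorem agr_of_trn {n d : ℕ} {w w' : VV n} (h : trn d w = trn d w') : Agr d w w' := by
  intro i hi
  have := congrFun h i
  simpa [trn, hi] using this

/-- the pattern -/
def patA {m n : ℕ} (x x' : VV m) (e d : ℕ) (w0 r : VV n) (z : VV n → Bool) :
    Finset (VV m × VV n) :=
  univ.filter (fun b => Agr e b.2 w0 ∧
    ((b.1 = x ∧ z (trn d b.2) = false) ∨ (b.1 = x' ∧ z (trn d (b.2 + r)) = true)))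

theorem patA_congr {m n : ℕ} (x x' : VV m) {e d : ℕ} {w0 w0' r r' : VV n} (z : VV n → Bool)
    (h : Agr e w0 w0') (h' : Agr d r r') : patA x x' e d w0 r z = patA x x' e d w0' r' z := by
  ext b
  simp only [patA, mem_filter, mem_univ, true_and]
  have e1 : Agr e b.2 w0 ↔ Agr e b.2 w0' :=
    ⟨fun h1 => h1.trans h, fun h1 => h1.trans h.symm⟩
  have e2 : trn d (b.2 + r) = trn d (b.2 + r') := by
    apply trn_congr
    intro i hi
    simp [h' i hi]
  rw [e1, e2]

theorem patA_nonempty {m n : ℕ} (x x' : VV m) (e d : ℕ) (w0 r : VV n) (z : VV n → Bool)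
    (hr : ∀ i : Fin n, i.val < e → r i = 0) :
    (x, w0) ∈ patA x x' e d w0 r z ∨ (x', w0 + r) ∈ patA x x' e d w0 r z := by
  simp only [patA, mem_filter, mem_univ, true_and]
  by_cases h : z (trn d w0) = false
  · left
    exact ⟨Agr.rfl', Or.inl h⟩
  · right
    refine ⟨agr_add_zero hr, Or.inr ?_⟩
    rw [vv_add_cancel]
    simpa using h

theorem mass_shift {n : ℕ} (f : VV n → ℝ) (d : ℕ) (w r : VV n) :
    mass (fun β => f (β + r)) d w = mass f d (w + r) := by
  unfold mass
  apply Finset.sum_nbij' (fun β => β + r) (fun β => β + r)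
  · intro β hβ
    simp only [mem_filter, mem_univ, true_and] at hβ ⊢
    exact hβ.add
  · intro β hβ
    simp only [mem_filter, mem_univ, true_and] at hβ ⊢
    have := hβ.add (v := r)
    rwa [vv_add_cancel] at this
  · intro β _; exact vv_add_cancel β r
  · intro β _; exact vv_add_cancel β r
  · intro β _; rfl

theorem heavy_card {n : ℕ} {f : VV n → ℝ} (hf : ∀ β, 0 ≤ f β) {e d : ℕ} (hed : e ≤ d)
    (w0 : VV n) :
    (((((UU e w0).filter (fun w => 1 / 2 ≤ mass f d w)).image (trn d)).card : ℕ) : ℝ) ≤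
      2 * mass f e w0 := by
  set A := ((UU e w0).filter (fun w => 1 / 2 ≤ mass f d w)).image (trn d) with hA
  have h1 : ∀ a ∈ A, 1 / 2 ≤ mass f d a := by
    intro a ha
    rw [hA, mem_image] at ha
    obtain ⟨w, hw, rfl⟩ := ha
    rw [mem_filter] at hw
    rw [mass_congr f (agr_trn w)]
    exact hw.2
  have h2 : ∑ a ∈ A, mass f d a ≤ mass f e w0 := by
    unfold mass
    rw [← Finset.sum_biUnion]
    · apply Finset.sum_le_sum_of_subset_of_nonneg
      · intro β hβ
        rw [mem_biUnion] at hβ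
        obtain ⟨a, ha, hβa⟩ := hβ
        rw [hA, mem_image] at ha
        obtain ⟨w, hw, rfl⟩ := ha
        rw [mem_filter, mem_UU] at hw
        rw [mem_filter] at hβa ⊢
        exact ⟨mem_univ _, ((hβa.2.trans (agr_trn w)).mono hed).trans hw.1⟩
      · intro β _ _; exact hf β
    · intro a ha b hb hab
      change Disjoint _ _
      rw [disjoint_left]
      intro β hβ hβ'
      rw [mem_filter] at hβ hβ'
      apply hab
      rw [hA, coe_image] at ha hb
      obtain ⟨w, _, rfl⟩ := ha
      obtain ⟨w', _, rfl⟩ := hb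
      apply trn_congr
      exact ((agr_trn w).symm.trans hβ.2.symm).trans (hβ'.2.trans (agr_trn w'))
  have h3 : (A.card : ℝ) * (1 / 2) ≤ ∑ a ∈ A, mass f d a := by
    have := Finset.sum_le_sum h1
    rw [Finset.sum_const, nsmul_eq_mul] at this
    exact this
  linarith

theorem one_sub_ge {t : ℝ} (h0 : 0 ≤ t) (h1 : t ≤ 1 / 2) : Real.exp (-(2 * t)) ≤ 1 - t := by
  have h2 := Real.add_one_le_exp (2 * t)
  have h3 : Real.exp (-(2 * t)) * Real.exp (2 * t) = 1 := by rw [← Real.exp_add]; simp
  have h4 := Real.exp_pos (-(2 * t))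
  have h5 := mul_le_mul_of_nonneg_left h2 h4.le
  rw [h3] at h5
  nlinarith

/-- fraction of picked copies of `(x, β)` -/
noncomputable def nu {m n q : ℕ} (N : Finset ((VV m × VV n) × Fin q)) (x : VV m) : VV n → ℝ :=
  fun β => 1 - uu N (x, β)

theorem nu_nonneg {m n q : ℕ} (N : Finset ((VV m × VV n) × Fin q)) (x : VV m) (β : VV n) :
    0 ≤ nu N x β := by
  unfold nu; have := uu_le_one N (x, β); linarith

theorem nu_mono {m n q : ℕ} {N N' : Finset ((VV m × VV n) × Fin q)} (h : N ⊆ N') (x : VV m)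
    (β : VV n) : nu N x β ≤ nu N' x β := by
  unfold nu; have := uu_anti h (x, β); linarith

theorem exists_miss {m n q K : ℕ} (N : Finset ((VV m × VV n) × Fin q))
    {x x' : VV m} {e d : ℕ} (hed : e ≤ d) (w0 r : VV n)
    (hr : ∀ i : Fin n, i.val < e → r i = 0)
    (hsmall : mass (nu N x) e w0 + mass (nu N x') e w0 < K)
    (hno : ∀ w, Agr e w w0 → ¬ (1 / 2 ≤ mass (nu N x) d w ∧ 1 / 2 ≤ mass (nu N x') d (w + r)))
    {Z : ℕ} (𝒵 : Fin Z → (VV n → Bool))
    (hZ : ∀ A : Finset (VV n), A.card ≤ 2 * K → ∀ f : VV n → Bool, ∃ j, ∀ a ∈ A, 𝒵 j a = f a) :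
    ∃ j, (1 / 4 : ℝ) ^ (2 * K) ≤ pr N (patA x x' e d w0 r (𝒵 j)) := by
  classical
  set f := nu N x with hf
  set f' := nu N x' with hf'
  have hf0 : ∀ β, 0 ≤ f β := nu_nonneg N x
  have hf0' : ∀ β, 0 ≤ f' β := nu_nonneg N x'
  set A1 := ((UU e w0).filter (fun w => 1 / 2 ≤ mass f d w)).image (trn d) with hA1
  set A0 := ((UU e w0).filter (fun w => 1 / 2 ≤ mass (fun β => f' (β + r)) d w)).image (trn d)
    with hA0
  have hc1 : (A1.card : ℝ) ≤ 2 * mass f e w0 := heavy_card hf0 hed w0
  have hc0 : (A0.card : ℝ) ≤ 2 * mass f' e w0 := by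
    have h1 := heavy_card (f := fun β => f' (β + r)) (fun β => hf0' _) hed w0
    rw [mass_shift, mass_congr f' (agr_add_zero hr)] at h1
    exact h1
  have hcard : (A1 ∪ A0).card ≤ 2 * K := by
    have h1 : ((A1 ∪ A0).card : ℝ) ≤ A1.card + A0.card := by
      exact_mod_cast Finset.card_union_le A1 A0
    have h2 : ((A1 ∪ A0).card : ℝ) ≤ ((2 * K : ℕ) : ℝ) := by push_cast; linarith
    exact_mod_cast h2
  obtain ⟨j, hj⟩ := hZ (A1 ∪ A0) hcard (fun a => decide (a ∈ A1))
  refine ⟨j, ?_⟩
  have hz1 : ∀ a ∈ A1, 𝒵 j a = true := by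
    intro a ha
    rw [hj a (mem_union_left _ ha)]
    simpa using ha
  have hz0 : ∀ a ∈ A0, 𝒵 j a = false := by
    intro a ha
    rw [hj a (mem_union_right _ ha)]
    simp only [decide_eq_false_iff_not]
    intro ha1
    rw [hA1, mem_image] at ha1
    rw [hA0, mem_image] at ha
    obtain ⟨w1, hw1, rfl⟩ := ha1
    obtain ⟨w2, hw2, h12⟩ := ha
    rw [mem_filter, mem_UU] at hw1 hw2
    rw [mass_shift] at hw2
    have hag := agr_of_trn h12
    apply hno w2 hw2.1
    refine ⟨?_, hw2.2⟩
    rw [mass_congr f hag]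
    exact hw1.2
  -- every column of the pattern is light
  have hlight : ∀ b ∈ patA x x' e d w0 r (𝒵 j), 1 - uu N b ≤ 1 / 2 := by
    rintro ⟨y, β⟩ hb
    simp only [patA, mem_filter, mem_univ, true_and] at hb
    obtain ⟨hβ, hcase⟩ := hb
    rcases hcase with ⟨rfl, hz⟩ | ⟨rfl, hz⟩
    · by_contra hcon
      push Not at hcon
      have h1 : f β ≤ mass f d β := by
        unfold mass
        exact Finset.single_le_sum (f := f) (fun γ _ => hf0 γ) (by simp [Agr.rfl'])
      have h2 : 1 / 2 ≤ mass f d β := by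
        have : f β = 1 - uu N (y, β) := rfl
        linarith
      have h3 : trn d β ∈ A1 := by
        rw [hA1]
        apply mem_image_of_mem
        rw [mem_filter, mem_UU]
        exact ⟨hβ, h2⟩
      rw [hz1 _ h3] at hz
      exact Bool.noConfusion hz
    · by_contra hcon
      push Not at hcon
      have h1 : f' β ≤ mass f' d β := by
        unfold mass
        exact Finset.single_le_sum (f := f') (fun γ _ => hf0' γ) (by simp [Agr.rfl'])
      have h2 : 1 / 2 ≤ mass f' d β := by
        have : f' β = 1 - uu N (y, β) := rfl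
        linarith
      have h3 : trn d (β + r) ∈ A0 := by
        rw [hA0]
        apply mem_image_of_mem
        rw [mem_filter, mem_UU, mass_shift, vv_add_cancel]
        exact ⟨(agr_add_zero hr).trans hβ, h2⟩
      rw [hz0 _ h3] at hz
      exact Bool.noConfusion hz
  -- the total mass of the pattern
  have htot : ∑ b ∈ patA x x' e d w0 r (𝒵 j), (1 - uu N b) ≤ mass f e w0 + mass f' e w0 := by
    have hsub : patA x x' e d w0 r (𝒵 j) ⊆
        (UU e w0).image (fun β => (x, β)) ∪ (UU e w0).image (fun β => (x', β)) := by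
      rintro ⟨y, β⟩ hb
      simp only [patA, mem_filter, mem_univ, true_and] at hb
      obtain ⟨hβ, hcase⟩ := hb
      rw [mem_union, mem_image, mem_image]
      rcases hcase with ⟨rfl, _⟩ | ⟨rfl, _⟩
      · left; exact ⟨β, mem_UU.mpr hβ, rfl⟩
      · right; exact ⟨β, mem_UU.mpr hβ, rfl⟩
    have hnn : ∀ b : VV m × VV n, 0 ≤ 1 - uu N b := fun b => by
      have := uu_le_one N b; linarith
    calc ∑ b ∈ patA x x' e d w0 r (𝒵 j), (1 - uu N b)
        ≤ ∑ b ∈ (UU e w0).image (fun β => (x, β)) ∪ (UU e w0).image (fun β => (x', β)),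
          (1 - uu N b) := Finset.sum_le_sum_of_subset_of_nonneg hsub (fun b _ _ => hnn b)
      _ ≤ ∑ b ∈ (UU e w0).image (fun β => (x, β)), (1 - uu N b) +
          ∑ b ∈ (UU e w0).image (fun β => (x', β)), (1 - uu N b) := by
          have := Finset.sum_union_inter (s₁ := (UU e w0).image (fun β => (x, β)))
            (s₂ := (UU e w0).image (fun β => (x', β))) (f := fun b => 1 - uu N b)
          have h2 : 0 ≤ ∑ b ∈ (UU e w0).image (fun β => (x, β)) ∩
            (UU e w0).image (fun β => (x', β)), (1 - uu N b) :=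
            Finset.sum_nonneg (fun b _ => hnn b)
          linarith
      _ = mass f e w0 + mass f' e w0 := by
          rw [Finset.sum_image (by intro a _ b _ hab; simpa using hab),
            Finset.sum_image (by intro a _ b _ hab; simpa using hab), mass_eq_sum_UU,
            mass_eq_sum_UU]
          rfl
  unfold pr
  calc (1 / 4 : ℝ) ^ (2 * K) ≤ (Real.exp (-1)) ^ (2 * K) := by
        apply pow_le_pow_left₀ (by norm_num)
        rw [Real.exp_neg, ← one_div]
        apply one_div_le_one_div_of_le (Real.exp_pos 1)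
        have := Real.exp_one_lt_d9
        linarith
    _ = Real.exp (-(2 * K : ℝ)) := by
        rw [← Real.exp_nat_mul]; congr 1; push_cast; ring
    _ ≤ Real.exp (-(2 * ∑ b ∈ patA x x' e d w0 r (𝒵 j), (1 - uu N b))) := by
        apply Real.exp_le_exp.mpr
        linarith
    _ = ∏ b ∈ patA x x' e d w0 r (𝒵 j), Real.exp (-(2 * (1 - uu N b))) := by
        rw [← Real.exp_sum, Finset.mul_sum, Finset.sum_neg_distrib]
    _ ≤ ∏ b ∈ patA x x' e d w0 r (𝒵 j), uu N b := by
        apply Finset.prod_le_prod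
        · intro b _; exact (Real.exp_pos _).le
        · intro b hb
          have h1 := one_sub_ge (t := 1 - uu N b) (by have := uu_le_one N b; linarith) (hlight b hb)
          linarith

end Pool.Agent.Lib_MP_ba67f2_lc
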