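import Mathlib
import Pool.Agent.Lib_MP_ba67f2_lc.Req

/-!
The random instances, and the averaged lower bound for every online algorithm.
-/

namespace Pool.Agent.Lib_MP_ba67f2_lc

open Finset

/-- instances: the translation vector and the columns of the matrix -/
abbrev Inst (m n : ℕ) := VV n × (Fin m → VV n)

/-- sign vector of epoch `e` -/
def sgn {m n : ℕ} (I : Inst m n) (e : ℕ) : VV n :=
  fun i => if h : e < m then (if e ≤ i.val then I.2 ⟨e, h⟩ i else 0) else 0

/-- label of the block `x` -/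
def lab {m n : ℕ} (I : Inst m n) (x : VV m) : VV n :=
  I.1 + ∑ e : Fin m, (fun i => x e * sgn I e.val i)

theorem sgn_zero {m n : ℕ} (I : Inst m n) (e : ℕ) : ∀ i : Fin n, i.val < e → sgn I e i = 0 := by
  intro i hi
  unfold sgn
  split_ifs with h h1
  · omega
  · rfl
  · rfl

theorem lab_shift {m n : ℕ} (I : Inst m n) (x : VV m) {e : ℕ} (he : e < m) :
    lab I (x + dl m e) = lab I x + sgn I e := by
  unfold lab
  rw [add_assoc]
  congr 1
  have h1 : ∀ e' : Fin m, (fun i => (x + dl m e) e' * sgn I e'.val i) =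
      (fun i => x e' * sgn I e'.val i) + (if e' = ⟨e, he⟩ then sgn I e else 0) := by
    intro e'
    funext i
    simp only [Pi.add_apply, dl]
    by_cases h : e' = ⟨e, he⟩
    · subst h
      simp
      ring
    · have : e'.val ≠ e := fun h2 => h (Fin.ext h2)
      simp [h, this]
  rw [Finset.sum_congr rfl (fun e' _ => h1 e'), Finset.sum_add_distrib,
    Finset.sum_ite_eq' univ (⟨e, he⟩ : Fin m) (fun _ => sgn I e)]
  simp

theorem lab_agr {m n : ℕ} {I I' : Inst m n} {d : ℕ} (h1 : Agr d I.1 I'.1)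
    (h2 : ∀ e, e < m → Agr d (sgn I e) (sgn I' e)) (x : VV m) : Agr d (lab I x) (lab I' x) := by
  intro i hi
  unfold lab
  simp only [Pi.add_apply, Finset.sum_apply]
  rw [h1 i hi]
  congr 1
  apply Finset.sum_congr rfl
  intro e _
  rw [h2 e.val e.2 i hi]

/-- flip coordinate `d` of column `e` -/
def flipR {m n : ℕ} (e d : ℕ) (I : Inst m n) : Inst m n :=
  (I.1, fun e' => if e'.val = e then I.2 e' + dl n d else I.2 e')

/-- flip coordinate `e` of the translation vector -/
def flipY {m n : ℕ} (e : ℕ) (I : Inst m n) : Inst m n := (I.1 + dl n e, I.2)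

theorem flipR_invol {m n : ℕ} (e d : ℕ) (I : Inst m n) : flipR e d (flipR e d I) = I := by
  unfold flipR
  ext i j
  · rfl
  · simp only
    split_ifs with h
    · rw [vv_add_cancel]
    · rfl

theorem flipY_invol {m n : ℕ} (e : ℕ) (I : Inst m n) : flipY e (flipY e I) = I := by
  unfold flipY
  simp only
  rw [vv_add_cancel]

theorem sgn_flipR_ne {m n : ℕ} (I : Inst m n) {e d e' : ℕ} (h : e' ≠ e) :
    sgn (flipR e d I) e' = sgn I e' := by
  funext i
  unfold sgn flipR
  simp [h]

theorem sgn_flipR {m n : ℕ} (I : Inst m n) {e d : ℕ} (he : e < m) (hed : e ≤ d) :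
    sgn (flipR e d I) e = sgn I e + dl n d := by
  funext i
  unfold sgn flipR
  simp only [Pi.add_apply, dif_pos he, if_true]
  split_ifs with h
  · rfl
  · rw [dl_zero hed i (by omega)]; simp

theorem sgn_flipY {m n : ℕ} (I : Inst m n) (e e' : ℕ) : sgn (flipY e I) e' = sgn I e' := rfl

theorem lab_flipR_agr {m n : ℕ} (I : Inst m n) {e d : ℕ} (hed : e ≤ d) (x : VV m) :
    Agr d (lab (flipR e d I) x) (lab I x) := by
  apply lab_agr
  · exact Agr.rfl'
  · intro e' he'
    by_cases h : e' = e
    · subst h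
      rw [sgn_flipR I he' hed]
      exact agr_add_zero (dl_zero le_rfl)
    · rw [sgn_flipR_ne I h]; exact Agr.rfl'

theorem lab_flipY {m n : ℕ} (I : Inst m n) (e : ℕ) (x : VV m) :
    lab (flipY e I) x = lab I x + dl n e := by
  unfold lab
  have : (flipY e I).1 = I.1 + dl n e := rfl
  rw [this, add_right_comm]
  rfl

theorem lab_flipY_agr {m n : ℕ} (I : Inst m n) (e : ℕ) (x : VV m) :
    Agr e (lab (flipY e I) x) (lab I x) := by
  rw [lab_flipY]; exact agr_add_zero (dl_zero le_rfl)

/-! ### The potential of an instance and a set of picks -/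

section Potential

variable {m n q : ℕ}

/-- mass under the current roots -/
noncomputable def Wt (N : Finset ((VV m × VV n) × Fin q)) (e : ℕ) (I : Inst m n) : ℝ :=
  ∑ x : VV m, mass (nu N x) e (lab I x)

/-- sum of the pair potentials -/
noncomputable def SP (N : Finset ((VV m × VV n) × Fin q)) (e d : ℕ) (I : Inst m n) : ℝ :=
  ∑ x : VV m, PP (nu N x) (nu N (x + dl m e)) e d (lab I x) (sgn I e)

/-- sum of the branching potentials -/
noncomputable def SH (N : Finset ((VV m × VV n) × Fin q)) (e d : ℕ) (I : Inst m n) : ℝ :=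
  ∑ x : VV m, HH (nu N x) e d (lab I x)

theorem SP_nonneg (N : Finset ((VV m × VV n) × Fin q)) (e d : ℕ) (I : Inst m n) :
    0 ≤ SP N e d I := Finset.sum_nonneg (fun _ _ => PP_nonneg _ _ _ _ _ _)

theorem SH_nonneg (N : Finset ((VV m × VV n) × Fin q)) (e d : ℕ) (I : Inst m n) :
    0 ≤ SH N e d I := Finset.sum_nonneg (fun _ _ => HH_nonneg _ _ _ _)

theorem Wt_nonneg (N : Finset ((VV m × VV n) × Fin q)) (e : ℕ) (I : Inst m n) :
    0 ≤ Wt N e I := Finset.sum_nonneg (fun x _ => mass_nonneg (nu_nonneg N x) _ _)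

theorem sum_shift (e : ℕ) (F : VV m → ℝ) : ∑ x : VV m, F (x + dl m e) = ∑ x : VV m, F x := by
  apply Finset.sum_nbij' (fun w => w + dl m e) (fun w => w + dl m e)
  · intro w _; exact mem_univ _
  · intro w _; exact mem_univ _
  · intro w _; exact vv_add_cancel w _
  · intro w _; exact vv_add_cancel w _
  · intro w _; rfl

theorem HH_congr {f : VV n → ℝ} {e d : ℕ} {w0 w1 : VV n} (h : Agr e w0 w1) :
    HH f e d w0 = HH f e d w1 := by
  unfold HH; rw [UU_congr h]

theorem PP_congr {f f' : VV n → ℝ} {e d : ℕ} {w0 w1 r : VV n} (h : Agr e w0 w1) :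
    PP f f' e d w0 r = PP f f' e d w1 r := by
  unfold PP; rw [UU_congr h]

theorem lab_shift_agr (I : Inst m n) (x : VV m) {e : ℕ} (he : e < m) :
    Agr e (lab I (x + dl m e)) (lab I x) := by
  rw [lab_shift I x he]; exact agr_add_zero (sgn_zero I e)

theorem SH_shift (N : Finset ((VV m × VV n) × Fin q)) {e : ℕ} (he : e < m) (d : ℕ)
    (I : Inst m n) : ∑ x : VV m, HH (nu N (x + dl m e)) e d (lab I x) = SH N e d I := by
  unfold SH
  rw [← sum_shift e (fun x => HH (nu N x) e d (lab I x))]
  apply Finset.sum_congr rfl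
  intro x _
  exact HH_congr (lab_shift_agr I x he).symm

theorem Wt_shift (N : Finset ((VV m × VV n) × Fin q)) {e : ℕ} (he : e < m)
    (I : Inst m n) : ∑ x : VV m, mass (nu N (x + dl m e)) e (lab I x) = Wt N e I := by
  unfold Wt
  rw [← sum_shift e (fun x => mass (nu N x) e (lab I x))]
  apply Finset.sum_congr rfl
  intro x _
  exact mass_congr _ (lab_shift_agr I x he).symm

/-- the sweep step, for a fixed instance and a fixed set of picks -/
theorem sweep_step (N : Finset ((VV m × VV n) × Fin q)) {e d : ℕ} (he : e < m) (hed : e ≤ d)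
    (hdn : d < n) (I : Inst m n) :
    SP N e (d + 1) I + SP N e (d + 1) (flipR e d I) +
      2 * (SH N e (d + 1) I + SH N e (d + 1) (flipR e d I)) ≤
      SP N e d I + 4 * SH N e d I := by
  have hag : ∀ x, Agr e (lab (flipR e d I) x) (lab I x) := fun x => (lab_flipR_agr I hed x).mono hed
  have h1 : SH N e (d + 1) (flipR e d I) = SH N e (d + 1) I := by
    unfold SH
    exact Finset.sum_congr rfl (fun x _ => HH_congr (hag x))
  have h2 : SP N e (d + 1) (flipR e d I) =
      ∑ x : VV m, PP (nu N x) (nu N (x + dl m e)) e (d + 1) (lab I x) (sgn I e + dl n d) := by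
    unfold SP
    apply Finset.sum_congr rfl
    intro x _
    rw [sgn_flipR I he hed]
    exact PP_congr (hag x)
  rw [h1, h2]
  have h3 : ∀ x : VV m, PP (nu N x) (nu N (x + dl m e)) e (d + 1) (lab I x) (sgn I e) +
      PP (nu N x) (nu N (x + dl m e)) e (d + 1) (lab I x) (sgn I e + dl n d) +
      2 * (HH (nu N x) e (d + 1) (lab I x) + HH (nu N (x + dl m e)) e (d + 1) (lab I x)) ≤
      PP (nu N x) (nu N (x + dl m e)) e d (lab I x) (sgn I e) +
      2 * (HH (nu N x) e d (lab I x) + HH (nu N (x + dl m e)) e d (lab I x)) := fun x =>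
    one_step (nu_nonneg N x) (nu_nonneg N _) hed hdn (lab I x) (sgn I e) (sgn_zero I e)
  have h4 := Finset.sum_le_sum (fun x (_ : x ∈ (univ : Finset (VV m))) => h3 x)
  rw [Finset.sum_add_distrib, Finset.sum_add_distrib, Finset.sum_add_distrib, ← Finset.mul_sum,
    ← Finset.mul_sum, Finset.sum_add_distrib, Finset.sum_add_distrib, SH_shift N he,
    SH_shift N he] at h4
  change SP N e (d + 1) I + _ + 2 * (SH N e (d + 1) I + SH N e (d + 1) I) ≤
    SP N e d I + 2 * (SH N e d I + SH N e d I) at h4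
  linarith

theorem Wt_flipR (N : Finset ((VV m × VV n) × Fin q)) {e d : ℕ} (hed : e ≤ d) (I : Inst m n) :
    Wt N e (flipR e d I) = Wt N e I := by
  unfold Wt
  exact Finset.sum_congr rfl (fun x _ => mass_congr _ ((lab_flipR_agr I hed x).mono hed))

/-- the root step -/
theorem root_step (N : Finset ((VV m × VV n) × Fin q)) {e : ℕ} (hen : e < n) (I : Inst m n) :
    Wt N (e + 1) I + Wt N (e + 1) (flipY e I) = Wt N e I := by
  unfold Wt
  rw [← Finset.sum_add_distrib]
  apply Finset.sum_congr rfl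
  intro x _
  rw [lab_flipY, ← mass_split _ hen]

/-- total potential -/
noncomputable def Psi (N : Finset ((VV m × VV n) × Fin q)) (e s : ℕ) (I : Inst m n) : ℝ :=
  (2 - (s : ℝ) / (8 * m)) * Wt N e I + (SP N e (e + s) I / 2 + SH N e (e + s) I)

theorem Wt_mono_le (hq : 0 < q) {N N' : Finset ((VV m × VV n) × Fin q)} (h : N ⊆ N') (e : ℕ)
    (I : Inst m n) : Wt N' e I ≤ Wt N e I + ((N'.card : ℝ) - N.card) / q := by
  classical
  set A : Finset (VV m × VV n) := univ.filter (fun b => Agr e b.2 (lab I b.1)) with hA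
  have hW : ∀ M : Finset ((VV m × VV n) × Fin q), Wt M e I = ∑ b ∈ A, (1 - uu M b) := by
    intro M
    unfold Wt mass
    rw [hA, Finset.sum_filter, ← Finset.univ_product_univ, Finset.sum_product]
    apply Finset.sum_congr rfl
    intro x _
    rw [Finset.sum_filter]
    rfl
  have h1 := sum_uu_sub hq h A
  have h2 : Wt N' e I - Wt N e I = ∑ b ∈ A, (uu N b - uu N' b) := by
    rw [hW, hW, ← Finset.sum_sub_distrib]
    apply Finset.sum_congr rfl
    intro b _; ring
  have h3 : (((N' \ N).filter (fun x => x.1 ∈ A)).card : ℝ) ≤ (N'.card : ℝ) - N.card := by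
    have e1 : ((N' \ N).filter (fun x => x.1 ∈ A)).card ≤ (N' \ N).card :=
      Finset.card_filter_le _ _
    have e2 := Finset.cast_card_sdiff (R := ℝ) h
    rw [← e2]
    exact_mod_cast e1
  have hq' : (0 : ℝ) < q := by exact_mod_cast hq
  have h4 : (((N' \ N).filter (fun x => x.1 ∈ A)).card : ℝ) / q ≤ ((N'.card : ℝ) - N.card) / q := by
    gcongr
  linarith

theorem Psi_lip (hq : 0 < q) {N N' : Finset ((VV m × VV n) × Fin q)} (h : N ⊆ N') {e s : ℕ}
    (he : e < m) (hs : s ≤ m) (hn : e + s ≤ n) (I : Inst m n) :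
    Psi N' e s I ≤ Psi N e s I + 4 * (((N'.card : ℝ) - N.card) / q) := by
  have hW := Wt_mono_le hq h e I
  have hmono : ∀ x β, nu N x β ≤ nu N' x β := fun x β => nu_mono h x β
  have hWm : Wt N e I ≤ Wt N' e I :=
    Finset.sum_le_sum (fun x _ => mass_mono (hmono x) _ _)
  have hH : SH N' e (e + s) I ≤ SH N e (e + s) I + (Wt N' e I - Wt N e I) := by
    unfold SH Wt
    rw [← Finset.sum_sub_distrib, ← Finset.sum_add_distrib]
    apply Finset.sum_le_sum
    intro x _
    exact HH_lip (hmono x) (by omega) hn _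
  have hP : SP N' e (e + s) I ≤ SP N e (e + s) I + 2 * (Wt N' e I - Wt N e I) := by
    have h1 : SP N' e (e + s) I ≤ SP N e (e + s) I + (Wt N' e I - Wt N e I) +
        (∑ x : VV m, mass (nu N' (x + dl m e)) e (lab I x) -
          ∑ x : VV m, mass (nu N (x + dl m e)) e (lab I x)) := by
      unfold SP Wt
      rw [← Finset.sum_sub_distrib, ← Finset.sum_sub_distrib, ← Finset.sum_add_distrib,
        ← Finset.sum_add_distrib]
      apply Finset.sum_le_sum
      intro x _
      exact PP_lip (hmono x) (hmono _) (by omega) hn _ _ (sgn_zero I e)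
    rw [Wt_shift N' he, Wt_shift N he] at h1
    linarith
  unfold Psi
  have hm : (0 : ℝ) < m := by
    have : 0 < m := by omega
    exact_mod_cast this
  have hs0 : 0 ≤ (s : ℝ) / (8 * m) := by positivity
  have hs1 : (s : ℝ) / (8 * m) ≤ 2 := by
    rw [div_le_iff₀ (by positivity)]
    have : (s : ℝ) ≤ m := by exact_mod_cast hs
    linarith
  nlinarith

theorem Psi_root_le {e : ℕ} (N : Finset ((VV m × VV n) × Fin q)) (hn : e ≤ n) (I : Inst m n) :
    Psi N e 0 I ≤ 7 / 2 * Wt N e I := by
  have h1 : SP N e (e + 0) I ≤ Wt N e I :=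
    Finset.sum_le_sum (fun x _ => PP_le (nu_nonneg N x) (by omega) (by omega) _ _)
  have h2 : SH N e (e + 0) I ≤ Wt N e I :=
    Finset.sum_le_sum (fun x _ => HH_le (nu_nonneg N x) (by omega) (by omega) _)
  unfold Psi
  simp only [Nat.cast_zero, zero_div, sub_zero]
  linarith

end Potential

/-! ### The request sequences -/

section Requests

variable {m n q Z : ℕ} {ι : Type} [Fintype ι] [DecidableEq ι]

/-- the patterns requested at a stage -/
def pset (𝒵 : Fin Z → (VV n → Bool)) (I : Inst m n) (e s : ℕ) :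
    Finset (Finset (VV m × VV n)) :=
  (univ : Finset (VV m × Fin Z)).image
    (fun z => patA z.1 (z.1 + dl m e) e (e + s) (lab I z.1) (sgn I e) (𝒵 z.2))

theorem pset_congr (𝒵 : Fin Z → (VV n → Bool)) {I I' : Inst m n} {e s : ℕ}
    (h1 : ∀ x, Agr e (lab I x) (lab I' x)) (h2 : Agr (e + s) (sgn I e) (sgn I' e)) :
    pset 𝒵 I e s = pset 𝒵 I' e s := by
  unfold pset
  apply Finset.image_congr
  intro z _
  exact patA_congr _ _ _ (h1 z.1) h2

/-- the requests of a stage -/
noncomputable def stg (𝒵 : Fin Z → (VV n → Bool)) (pat : ι → Finset (VV m × VV n))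
    (I : Inst m n) (e s : ℕ) : List ι :=
  (univ.filter (fun j => pat j ∈ pset 𝒵 I e s)).toList

/-- all requests of the epochs before `e` -/
noncomputable def base (𝒵 : Fin Z → (VV n → Bool)) (pat : ι → Finset (VV m × VV n))
    (I : Inst m n) (e : ℕ) : List ι :=
  (List.range e).flatMap (fun e' => (List.range m).flatMap (fun s => stg 𝒵 pat I e' s))

/-- all requests up to and including stage `(e, s)` -/
noncomputable def Lst (𝒵 : Fin Z → (VV n → Bool)) (pat : ι → Finset (VV m × VV n))
    (I : Inst m n) (e s : ℕ) : List ι :=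
  base 𝒵 pat I e ++ (List.range (s + 1)).flatMap (fun s' => stg 𝒵 pat I e s')

theorem Lst_succ (𝒵 : Fin Z → (VV n → Bool)) (pat : ι → Finset (VV m × VV n))
    (I : Inst m n) (e s : ℕ) :
    Lst 𝒵 pat I e (s + 1) = Lst 𝒵 pat I e s ++ stg 𝒵 pat I e (s + 1) := by
  unfold Lst
  rw [List.range_succ, List.flatMap_append, List.append_assoc]
  simp

theorem Lst_next (hm : 0 < m) (𝒵 : Fin Z → (VV n → Bool)) (pat : ι → Finset (VV m × VV n))
    (I : Inst m n) (e : ℕ) :
    Lst 𝒵 pat I (e + 1) 0 = Lst 𝒵 pat I e (m - 1) ++ stg 𝒵 pat I (e + 1) 0 := by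
  unfold Lst base
  rw [List.range_succ, List.flatMap_append]
  have : m - 1 + 1 = m := by omega
  rw [this]
  simp

theorem Lst_congr (𝒵 : Fin Z → (VV n → Bool)) (pat : ι → Finset (VV m × VV n))
    {I I' : Inst m n} {e s : ℕ}
    (h : ∀ e' s', (e' < e ∧ s' < m) ∨ (e' = e ∧ s' ≤ s) → pset 𝒵 I e' s' = pset 𝒵 I' e' s') :
    Lst 𝒵 pat I e s = Lst 𝒵 pat I' e s := by
  unfold Lst base stg
  refine congrArg₂ (fun a b => a ++ b) ?_ ?_
  · apply List.flatMap_congr
    intro e' he'
    rw [List.mem_range] at he'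
    apply List.flatMap_congr
    intro s' hs'
    rw [List.mem_range] at hs'
    rw [h e' s' (Or.inl ⟨he', hs'⟩)]
  · apply List.flatMap_congr
    intro s' hs'
    rw [List.mem_range] at hs'
    rw [h e s' (Or.inr ⟨rfl, by omega⟩)]

theorem Lst_flipR (𝒵 : Fin Z → (VV n → Bool)) (pat : ι → Finset (VV m × VV n))
    (I : Inst m n) {e s : ℕ} (he : e < m) :
    Lst 𝒵 pat (flipR e (e + s) I) e s = Lst 𝒵 pat I e s := by
  apply Lst_congr
  intro e' s' h
  apply pset_congr
  · intro x
    apply (lab_flipR_agr I (by omega) x).mono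
    rcases h with h | h <;> omega
  · by_cases h' : e' = e
    · subst h'
      rw [sgn_flipR I he (by omega)]
      apply agr_add_zero
      apply dl_zero
      rcases h with h | h <;> omega
    · rw [sgn_flipR_ne I h']; exact Agr.rfl'

theorem Lst_flipY (𝒵 : Fin Z → (VV n → Bool)) (pat : ι → Finset (VV m × VV n))
    (I : Inst m n) {e s : ℕ} :
    Lst 𝒵 pat (flipY e I) e s = Lst 𝒵 pat I e s := by
  apply Lst_congr
  intro e' s' h
  apply pset_congr
  · intro x
    apply (lab_flipY_agr I e x).mono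
    rcases h with h | h <;> omega
  · rw [sgn_flipY]; exact Agr.rfl'

end Requests

/-! ### The averaged game -/

section Average

variable {m n q Z : ℕ} {ι : Type} [Fintype ι] [DecidableEq ι]

theorem sum_flip {α : Type} [Fintype α] (φ : α → α) (hφ : ∀ a, φ (φ a) = a) (F : α → ℝ) :
    ∑ a, F a = (1 / 2) * ∑ a, (F a + F (φ a)) := by
  have : ∑ a, F (φ a) = ∑ a, F a := by
    apply Finset.sum_nbij' φ φ
    · intro w _; exact mem_univ _
    · intro w _; exact mem_univ _
    · intro w _; exact hφ w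
    · intro w _; exact hφ w
    · intro w _; rfl
  rw [Finset.sum_add_distrib, this]; ring

/-- After a stage, the picks satisfy the requirement. -/
theorem requirement {K : ℕ} (hmK : K = m) (hm : 0 < m)
    (𝒵 : Fin Z → (VV n → Bool))
    (hZ : ∀ A : Finset (VV n), A.card ≤ 2 * K → ∀ f : VV n → Bool, ∃ j, ∀ a ∈ A, 𝒵 j a = f a)
    (pat : ι → Finset (VV m × VV n)) (R : ι → Finset ((VV m × VV n) × Fin q))
    (hmiss : ∀ (x : VV m) (e d : ℕ) (w0 r : VV n) (j : Fin Z), e < m → d < n →
      (patA x (x + dl m e) e d w0 r (𝒵 j)).Nonempty →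
      ∀ N : Finset ((VV m × VV n) × Fin q),
      (1 / 4 : ℝ) ^ (2 * K) ≤ pr N (patA x (x + dl m e) e d w0 r (𝒵 j)) →
      ∃ i, pat i = patA x (x + dl m e) e d w0 r (𝒵 j) ∧ Disjoint (R i) N)
    (N : Finset ((VV m × VV n) × Fin q)) {e s : ℕ} (he : e < m) (hn : e + s < n) (I : Inst m n)
    (hhit : ∀ i ∈ stg 𝒵 pat I e s, ∃ y ∈ N, y ∈ R i) :
    (2 : ℝ) ^ m / 4 - Wt N e I / (2 * m) ≤ SP N e (e + s) I := by
  classical
  have hm' : (0 : ℝ) < m := by exact_mod_cast hm
  have key : ∀ x : VV m, 1 / 4 - (mass (nu N x) e (lab I x) +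
      mass (nu N (x + dl m e)) e (lab I x)) / (4 * m) ≤
      PP (nu N x) (nu N (x + dl m e)) e (e + s) (lab I x) (sgn I e) := by
    intro x
    by_contra hcon
    push Not at hcon
    have hPP0 := PP_nonneg (nu N x) (nu N (x + dl m e)) e (e + s) (lab I x) (sgn I e)
    have hmass0 : 0 ≤ mass (nu N x) e (lab I x) := mass_nonneg (nu_nonneg N x) _ _
    have hmass0' : 0 ≤ mass (nu N (x + dl m e)) e (lab I x) := mass_nonneg (nu_nonneg N _) _ _
    have hsmall : mass (nu N x) e (lab I x) + mass (nu N (x + dl m e)) e (lab I x) < K := by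
      have h1 : (mass (nu N x) e (lab I x) +
        mass (nu N (x + dl m e)) e (lab I x)) / (4 * m) < 1 / 4 := by linarith
      rw [div_lt_iff₀ (by positivity)] at h1
      rw [hmK]
      linarith
    have hP14 : PP (nu N x) (nu N (x + dl m e)) e (e + s) (lab I x) (sgn I e) < 1 / 4 := by
      have : 0 ≤ (mass (nu N x) e (lab I x) +
        mass (nu N (x + dl m e)) e (lab I x)) / (4 * m) := by positivity
      linarith
    have hno : ∀ w, Agr e w (lab I x) → ¬ (1 / 2 ≤ mass (nu N x) (e + s) w ∧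
        1 / 2 ≤ mass (nu N (x + dl m e)) (e + s) (w + sgn I e)) := by
      rintro w hw ⟨h1, h2⟩
      have := PP_ge (e := e) (d := e + s) (by omega) hn.le (lab I x) (sgn I e) w hw h1 h2
      linarith
    obtain ⟨j, hj⟩ := exists_miss N (by omega) (lab I x) (sgn I e) (sgn_zero I e) hsmall hno 𝒵 hZ
    have hne : (patA x (x + dl m e) e (e + s) (lab I x) (sgn I e) (𝒵 j)).Nonempty := by
      rcases patA_nonempty x (x + dl m e) e (e + s) (lab I x) (sgn I e) (𝒵 j) (sgn_zero I e)
        with h | h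
      · exact ⟨_, h⟩
      · exact ⟨_, h⟩
    obtain ⟨i, hi, hdis⟩ := hmiss x e (e + s) (lab I x) (sgn I e) j he hn hne N hj
    have hmem : i ∈ stg 𝒵 pat I e s := by
      unfold stg pset
      rw [Finset.mem_toList, mem_filter]
      refine ⟨mem_univ _, ?_⟩
      rw [hi, mem_image]
      exact ⟨(x, j), mem_univ _, rfl⟩
    obtain ⟨y, hyN, hyR⟩ := hhit i hmem
    exact (disjoint_left.mp hdis) hyR hyN
  have h1 := Finset.sum_le_sum (fun x (_ : x ∈ (univ : Finset (VV m))) => key x)
  have hcard : Fintype.card (VV m) = 2 ^ m := by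
    simp [VV, ZMod.card]
  have hc : ∑ x : VV m, (1 / 4 : ℝ) = (2 : ℝ) ^ m / 4 := by
    rw [Finset.sum_const, Finset.card_univ, hcard, nsmul_eq_mul]
    push_cast
    ring
  have hd : ∑ x : VV m, (mass (nu N x) e (lab I x) +
      mass (nu N (x + dl m e)) e (lab I x)) / (4 * m) = Wt N e I / (2 * m) := by
    rw [← Finset.sum_div, Finset.sum_add_distrib, Wt_shift N he]
    change (Wt N e I + Wt N e I) / (4 * m) = Wt N e I / (2 * m)
    field_simp
    ring
  rw [Finset.sum_sub_distrib, hc, hd] at h1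
  exact h1

/-- The averaged lower bound. -/
theorem average_bound (hm : 0 < m) (hmn : n = 2 * m) (hq : 0 < q)
    (𝒵 : Fin Z → (VV n → Bool))
    (hZ : ∀ A : Finset (VV n), A.card ≤ 2 * m → ∀ f : VV n → Bool, ∃ j, ∀ a ∈ A, 𝒵 j a = f a)
    (pat : ι → Finset (VV m × VV n)) (R : ι → Finset ((VV m × VV n) × Fin q))
    (hmiss : ∀ (x : VV m) (e d : ℕ) (w0 r : VV n) (j : Fin Z), e < m → d < n →
      (patA x (x + dl m e) e d w0 r (𝒵 j)).Nonempty →
      ∀ N : Finset ((VV m × VV n) × Fin q),
      (1 / 4 : ℝ) ^ (2 * m) ≤ pr N (patA x (x + dl m e) e d w0 r (𝒵 j)) →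
      ∃ i, pat i = patA x (x + dl m e) e d w0 r (𝒵 j) ∧ Disjoint (R i) N)
    (Pk : List ι → Finset ((VV m × VV n) × Fin q))
    (hmono : ∀ l j, Pk l ⊆ Pk (l ++ [j])) (hhit : ∀ l j, ∃ y ∈ Pk (l ++ [j]), y ∈ R j) :
    (Fintype.card (Inst m n) : ℝ) * (m * (m - 1) * 2 ^ m / 64) * q ≤
      ∑ I : Inst m n, ((Pk (Lst 𝒵 pat I (m - 1) (m - 1))).card : ℝ) := by
  classical
  have hm' : (0 : ℝ) < m := by exact_mod_cast hm
  have hq' : (0 : ℝ) < q := by exact_mod_cast hq
  -- monotonicity and hitting for appended lists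
  have hmono' : ∀ l' l, Pk l ⊆ Pk (l ++ l') := by
    intro l'
    induction l' with
    | nil => intro l; simp
    | cons j l' ih =>
      intro l
      have : l ++ j :: l' = (l ++ [j]) ++ l' := by simp
      rw [this]
      exact (hmono l j).trans (ih _)
  have hhit' : ∀ l l' : List ι, ∀ j ∈ l', ∃ y ∈ Pk (l ++ l'), y ∈ R j := by
    intro l l' j hj
    obtain ⟨l1, l2, rfl⟩ := List.append_of_mem hj
    obtain ⟨y, hy, hyR⟩ := hhit (l ++ l1) j
    refine ⟨y, ?_, hyR⟩
    have : l ++ (l1 ++ j :: l2) = (l ++ l1 ++ [j]) ++ l2 := by simp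
    rw [this]
    exact hmono' _ _ hy
  set NN : ℕ → ℕ → Inst m n → Finset ((VV m × VV n) × Fin q) :=
    fun e s I => Pk (Lst 𝒵 pat I e s) with hNN
  set SS : ℕ → ℕ → ℝ := fun e s => ∑ I : Inst m n, Psi (NN e s I) e s I with hSS
  set KK : ℕ → ℕ → ℝ := fun e s => ∑ I : Inst m n, ((NN e s I).card : ℝ) / q with hKK
  set B : ℝ := (Fintype.card (Inst m n) : ℝ) * 2 ^ m with hB
  -- hits
  have hstage : ∀ e s I, ∀ i ∈ stg 𝒵 pat I e s, ∃ y ∈ NN e s I, y ∈ R i := by
    intro e s I i hi
    simp only [hNN]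
    cases s with
    | zero =>
      have : Lst 𝒵 pat I e 0 = base 𝒵 pat I e ++ stg 𝒵 pat I e 0 := by
        unfold Lst; simp
      rw [this]
      exact hhit' _ _ i hi
    | succ s =>
      rw [Lst_succ]
      exact hhit' _ _ i hi
  -- the start
  have hstart : SS 0 0 ≤ 4 * KK 0 0 := by
    simp only [hSS, hKK]
    rw [Finset.mul_sum]
    apply Finset.sum_le_sum
    intro I _
    have h1 := Psi_root_le (NN 0 0 I) (Nat.zero_le n) I
    have h2 := Wt_mono_le hq (Finset.empty_subset (NN 0 0 I)) 0 I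
    have h3 : Wt (∅ : Finset ((VV m × VV n) × Fin q)) 0 I = 0 := by
      unfold Wt mass nu
      simp [uu]
    rw [h3] at h2
    simp only [Finset.card_empty, Nat.cast_zero, sub_zero, zero_add] at h2
    have h4 := Wt_nonneg (NN 0 0 I) 0 I
    linarith
  -- the sweep
  have hsweep : ∀ e s, e < m → s + 1 < m →
      SS e (s + 1) ≤ SS e s - B / 16 + 4 * (KK e (s + 1) - KK e s) := by
    intro e s he hs
    have hd : e + s < n := by omega
    have h1 : SS e (s + 1) ≤ ∑ I : Inst m n, Psi (NN e s I) e (s + 1) I +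
        4 * (KK e (s + 1) - KK e s) := by
      simp only [hSS, hKK]
      rw [← Finset.sum_sub_distrib, Finset.mul_sum, ← Finset.sum_add_distrib]
      apply Finset.sum_le_sum
      intro I _
      have hsub : NN e s I ⊆ NN e (s + 1) I := by
        simp only [hNN]; rw [Lst_succ]; exact hmono' _ _
      have := Psi_lip hq hsub he (by omega) (by omega) I (s := s + 1)
      rw [sub_div] at this
      exact this
    have h2 : ∑ I : Inst m n, Psi (NN e s I) e (s + 1) I ≤ SS e s - B / 16 := by
      rw [sum_flip (flipR e (e + s)) (flipR_invol e (e + s))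
        (fun I => Psi (NN e s I) e (s + 1) I)]
      have h3 : ∀ I : Inst m n, Psi (NN e s I) e (s + 1) I +
          Psi (NN e s (flipR e (e + s) I)) e (s + 1) (flipR e (e + s) I) ≤
          2 * (Psi (NN e s I) e s I - 2 ^ m / 16) := by
        intro I
        have e1 : NN e s (flipR e (e + s) I) = NN e s I := by
          simp only [hNN]; rw [Lst_flipR 𝒵 pat I he]
        rw [e1]
        set N := NN e s I with hN
        have e2 := sweep_step N he (Nat.le_add_right e s) hd I
        have e3 := Wt_flipR N (Nat.le_add_right e s) I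
        have e4 := requirement rfl hm 𝒵 hZ pat R hmiss N he hd I (hstage e s I)
        unfold Psi
        rw [e3]
        have e5 : e + (s + 1) = e + s + 1 := by ring
        rw [e5]
        have e6 : ((s + 1 : ℕ) : ℝ) / (8 * m) = (s : ℝ) / (8 * m) + 1 / (8 * m) := by
          push_cast; ring
        rw [e6]
        have e7 : Wt N e I / (2 * m) = 4 * (1 / (8 * m) * Wt N e I) := by
          field_simp; ring
        rw [e7] at e4
        have e8 := Wt_nonneg N e I
        nlinarith
      have h4 := Finset.sum_le_sum (fun I (_ : I ∈ (univ : Finset (Inst m n))) => h3 I)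
      rw [← Finset.mul_sum, Finset.sum_sub_distrib, Finset.sum_const, Finset.card_univ,
        nsmul_eq_mul] at h4
      simp only [hSS]
      rw [hB]
      linarith
    linarith
  -- the root
  have hroot : ∀ e, e + 1 < m →
      SS (e + 1) 0 ≤ SS e (m - 1) + 4 * (KK (e + 1) 0 - KK e (m - 1)) := by
    intro e he
    have h1 : SS (e + 1) 0 ≤ ∑ I : Inst m n, Psi (NN e (m - 1) I) (e + 1) 0 I +
        4 * (KK (e + 1) 0 - KK e (m - 1)) := by
      simp only [hSS, hKK]
      rw [← Finset.sum_sub_distrib, Finset.mul_sum, ← Finset.sum_add_distrib]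
      apply Finset.sum_le_sum
      intro I _
      have hsub : NN e (m - 1) I ⊆ NN (e + 1) 0 I := by
        simp only [hNN]; rw [Lst_next hm]; exact hmono' _ _
      have := Psi_lip hq hsub he (by omega) (by omega) I (s := 0)
      rw [sub_div] at this
      exact this
    have h2 : ∑ I : Inst m n, Psi (NN e (m - 1) I) (e + 1) 0 I ≤ SS e (m - 1) := by
      calc ∑ I : Inst m n, Psi (NN e (m - 1) I) (e + 1) 0 I
          ≤ ∑ I : Inst m n, 7 / 2 * Wt (NN e (m - 1) I) (e + 1) I := by
            apply Finset.sum_le_sum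
            intro I _
            exact Psi_root_le _ (by omega) I
        _ = (1 / 2) * ∑ I : Inst m n, (7 / 2 * Wt (NN e (m - 1) I) (e + 1) I +
              7 / 2 * Wt (NN e (m - 1) (flipY e I)) (e + 1) (flipY e I)) :=
            sum_flip (flipY e) (flipY_invol e) _
        _ = (1 / 2) * ∑ I : Inst m n, 7 / 2 * Wt (NN e (m - 1) I) e I := by
            congr 1
            apply Finset.sum_congr rfl
            intro I _
            have e1 : NN e (m - 1) (flipY e I) = NN e (m - 1) I := by
              simp only [hNN]; rw [Lst_flipY 𝒵 pat I]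
            rw [e1, ← mul_add, root_step _ (by omega)]
        _ ≤ SS e (m - 1) := by
            rw [Finset.mul_sum]
            simp only [hSS]
            apply Finset.sum_le_sum
            intro I _
            unfold Psi
            have e1 := SP_nonneg (NN e (m - 1) I) e (e + (m - 1)) I
            have e2 := SH_nonneg (NN e (m - 1) I) e (e + (m - 1)) I
            have e3 := Wt_nonneg (NN e (m - 1) I) e I
            have e4 : ((m - 1 : ℕ) : ℝ) / (8 * m) ≤ 1 / 8 := by
              rw [div_le_iff₀ (by positivity)]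
              have : ((m - 1 : ℕ) : ℝ) ≤ m := by exact_mod_cast Nat.sub_le m 1
              linarith
            nlinarith
    linarith
  -- within an epoch
  have hepoch : ∀ e, e < m → ∀ s, s < m →
      SS e s ≤ SS e 0 - s * (B / 16) + 4 * (KK e s - KK e 0) := by
    intro e he s
    induction s with
    | zero => intro _; simp
    | succ s ih =>
      intro hs
      have h1 := ih (by omega)
      have h2 := hsweep e s he hs
      push_cast
      linarith
  have hall : ∀ e, e < m →
      SS e (m - 1) ≤ 4 * KK e (m - 1) - (e + 1) * ((m - 1) * (B / 16)) := by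
    intro e
    induction e with
    | zero =>
      intro he
      have h1 := hepoch 0 he (m - 1) (by omega)
      have h2 : ((m - 1 : ℕ) : ℝ) = m - 1 := by rw [Nat.cast_sub (by omega)]; simp
      rw [h2] at h1
      push_cast
      linarith
    | succ e ih =>
      intro he
      have h0 := ih (by omega)
      have h1 := hepoch (e + 1) he (m - 1) (by omega)
      have h2 : ((m - 1 : ℕ) : ℝ) = m - 1 := by rw [Nat.cast_sub (by omega)]; simp
      rw [h2] at h1
      have h3 := hroot e he
      push_cast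
      linarith
  have hfin := hall (m - 1) (by omega)
  have hpos : 0 ≤ SS (m - 1) (m - 1) := by
    simp only [hSS]
    apply Finset.sum_nonneg
    intro I _
    unfold Psi
    have e1 := SP_nonneg (NN (m - 1) (m - 1) I) (m - 1) (m - 1 + (m - 1)) I
    have e2 := SH_nonneg (NN (m - 1) (m - 1) I) (m - 1) (m - 1 + (m - 1)) I
    have e3 := Wt_nonneg (NN (m - 1) (m - 1) I) (m - 1) I
    have e4 : ((m - 1 : ℕ) : ℝ) / (8 * m) ≤ 1 / 8 := by
      rw [div_le_iff₀ (by positivity)]
      have : ((m - 1 : ℕ) : ℝ) ≤ m := by exact_mod_cast Nat.sub_le m 1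
      linarith
    have e5 : 0 ≤ (2 - ((m - 1 : ℕ) : ℝ) / (8 * m)) * Wt (NN (m - 1) (m - 1) I) (m - 1) I := by
      apply mul_nonneg _ e3
      linarith
    linarith
  have h2 : ((m - 1 : ℕ) : ℝ) = m - 1 := by rw [Nat.cast_sub (by omega)]; simp
  rw [h2] at hfin
  have hKq : KK (m - 1) (m - 1) * q =
      ∑ I : Inst m n, ((Pk (Lst 𝒵 pat I (m - 1) (m - 1))).card : ℝ) := by
    simp only [hKK, hNN]
    rw [Finset.sum_mul]
    apply Finset.sum_congr rfl
    intro I _
    field_simp
  rw [← hKq]
  apply mul_le_mul_of_nonneg_right _ hq'.le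
  have h3 : (Fintype.card (Inst m n) : ℝ) * (m * (m - 1) * 2 ^ m / 64) =
      m * ((m - 1) * (B / 16)) / 4 := by rw [hB]; ring
  rw [h3]
  have h4 : ((m : ℝ) - 1 + 1) = m := by ring
  rw [h4] at hfin
  linarith

end Average

end Pool.Agent.Lib_MP_ba67f2_lc
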