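import Mathlib
import Pool.Agent.Lib_MP_ba67f2_lc.RGame

/-!
The incidence structure underlying both lower bounds, and the random inputs.
-/

namespace Pool.Agent.Lib_MP_ba67f2_lc

open Finset

theorem card_VV (n : ℕ) : Fintype.card (VV n) = 2 ^ n := by
  simp [VV, ZMod.card]

/-! ### The patterns -/

/-- all nonempty patterns -/
noncomputable def pats (m n : ℕ) {Z : ℕ} (𝒵 : Fin Z → (VV n → Bool)) :
    Finset (Finset (VV m × VV n)) :=
  ((univ : Finset (VV m × Fin m × Fin n × VV n × VV n × Fin Z)).image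
    (fun t => patA t.1 (t.1 + dl m t.2.1.val) t.2.1.val t.2.2.1.val t.2.2.2.1 t.2.2.2.2.1
      (𝒵 t.2.2.2.2.2))).filter (fun A => A.Nonempty)

theorem mem_pats {m n Z : ℕ} {𝒵 : Fin Z → (VV n → Bool)} {x : VV m} {e d : ℕ} (he : e < m)
    (hd : d < n) (w0 r : VV n) (j : Fin Z)
    (hne : (patA x (x + dl m e) e d w0 r (𝒵 j)).Nonempty) :
    patA x (x + dl m e) e d w0 r (𝒵 j) ∈ pats m n 𝒵 := by
  unfold pats
  rw [mem_filter, mem_image]
  exact ⟨⟨(x, ⟨e, he⟩, ⟨d, hd⟩, w0, r, j), mem_univ _, rfl⟩, hne⟩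

theorem two_sq_le {m : ℕ} (hm : 8 ≤ m) : 2 * m ^ 2 ≤ 2 ^ m := by
  induction m, hm using Nat.le_induction with
  | base => norm_num
  | succ n hn ih =>
    have e : 2 ^ (n + 1) = 2 * 2 ^ n := by ring
    rw [e]; nlinarith

theorem card_pats {m : ℕ} (hm : 8 ≤ m) (𝒵 : Fin (2 ^ (4 * m)) → (VV (2 * m) → Bool)) :
    (pats m (2 * m) 𝒵).card ≤ 2 ^ (10 * m) := by
  unfold pats
  refine (Finset.card_filter_le _ _).trans (Finset.card_image_le.trans ?_)
  rw [Finset.card_univ]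
  simp only [Fintype.card_prod, Fintype.card_fin, card_VV]
  have h1 := two_sq_le hm
  calc 2 ^ m * (m * (2 * m * (2 ^ (2 * m) * (2 ^ (2 * m) * 2 ^ (4 * m)))))
      = (2 * m ^ 2) * (2 ^ m * (2 ^ (2 * m) * (2 ^ (2 * m) * 2 ^ (4 * m)))) := by ring
    _ ≤ 2 ^ m * (2 ^ m * (2 ^ (2 * m) * (2 ^ (2 * m) * 2 ^ (4 * m)))) := Nat.mul_le_mul_right _ h1
    _ = 2 ^ (10 * m) := by
        rw [← pow_add, ← pow_add, ← pow_add, ← pow_add]; congr 1; ring

theorem card_B (m : ℕ) : Fintype.card (VV m × VV (2 * m)) = 2 ^ (3 * m) := by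
  rw [Fintype.card_prod, card_VV, card_VV, ← pow_add]; congr 1; ring

theorem numeric_A {m p : ℕ} (hm : 8 ≤ m) (hp : p ≤ 2 ^ (10 * m)) :
    (p : ℝ) * 2 ^ (Fintype.card (VV m × VV (2 * m)) * 2 ^ (46 * m)) *
      (1 - (1 / 4 : ℝ) ^ (2 * m)) ^ (2 ^ (54 * m)) ≤ 1 / 4 := by
  have hB : Fintype.card (VV m × VV (2 * m)) * 2 ^ (46 * m) = 2 ^ (49 * m) := by
    rw [card_B, ← pow_add]; congr 1; ring
  rw [hB]
  have e0 : (2 : ℝ) ≤ Real.exp 1 := by
    have := Real.add_one_le_exp (1 : ℝ); linarith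
  have e1 : ∀ n : ℕ, (2 : ℝ) ^ n ≤ Real.exp n := by
    intro n
    calc (2 : ℝ) ^ n ≤ (Real.exp 1) ^ n := pow_le_pow_left₀ (by norm_num) e0 n
      _ = Real.exp n := by rw [← Real.exp_nat_mul]; simp
  have h1 : (p : ℝ) ≤ Real.exp ((10 * m : ℕ) : ℝ) := by
    refine le_trans ?_ (e1 (10 * m))
    exact_mod_cast hp
  have h2 : (2 : ℝ) ^ (2 ^ (49 * m)) ≤ Real.exp ((2 ^ (49 * m) : ℕ) : ℝ) := e1 _
  have hle : (1 / 4 : ℝ) ^ (2 * m) ≤ 1 := pow_le_one₀ (by norm_num) (by norm_num)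
  have h3 : (1 - (1 / 4 : ℝ) ^ (2 * m)) ^ (2 ^ (54 * m)) ≤
      Real.exp (-((2 ^ (50 * m) : ℕ) : ℝ)) := by
    have e3 : 1 - (1 / 4 : ℝ) ^ (2 * m) ≤ Real.exp (-(1 / 4 : ℝ) ^ (2 * m)) := by
      have := Real.add_one_le_exp (-(1 / 4 : ℝ) ^ (2 * m)); linarith
    calc (1 - (1 / 4 : ℝ) ^ (2 * m)) ^ (2 ^ (54 * m))
        ≤ (Real.exp (-(1 / 4 : ℝ) ^ (2 * m))) ^ (2 ^ (54 * m)) :=
          pow_le_pow_left₀ (by linarith) e3 _
      _ = Real.exp (((2 ^ (54 * m) : ℕ) : ℝ) * (-(1 / 4 : ℝ) ^ (2 * m))) := by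
          rw [← Real.exp_nat_mul]
      _ = _ := by
          congr 1
          push_cast
          have h5 : (2 : ℝ) ^ (54 * m) = 2 ^ (50 * m) * 4 ^ (2 * m) := by
            have : (4 : ℝ) ^ (2 * m) = 2 ^ (2 * (2 * m)) := by rw [pow_mul 2 2]; norm_num
            rw [this, ← pow_add]; congr 1; ring
          rw [h5]
          have h4 : (4 : ℝ) ^ (2 * m) * (1 / 4) ^ (2 * m) = 1 := by rw [← mul_pow]; norm_num
          linear_combination (-(2 : ℝ) ^ (50 * m)) * h4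
  have hpos : (0 : ℝ) ≤ (1 - (1 / 4 : ℝ) ^ (2 * m)) ^ (2 ^ (54 * m)) := by
    have : 0 ≤ 1 - (1 / 4 : ℝ) ^ (2 * m) := by linarith
    positivity
  have hnat : 10 * m + 2 ^ (49 * m) + 2 ≤ 2 ^ (50 * m) := by
    have e4 : 2 ^ (50 * m) = 2 ^ (49 * m) * 2 ^ m := by rw [← pow_add]; congr 1; ring
    have e5 : 4 ≤ 2 ^ m := by
      calc 4 = 2 ^ 2 := by norm_num
        _ ≤ 2 ^ m := Nat.pow_le_pow_right (by norm_num) (by omega)
    have e6 : 49 * m < 2 ^ (49 * m) := Nat.lt_two_pow_self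
    nlinarith
  have hnat' : ((10 * m : ℕ) : ℝ) + ((2 ^ (49 * m) : ℕ) : ℝ) + 2 ≤ ((2 ^ (50 * m) : ℕ) : ℝ) := by
    exact_mod_cast hnat
  calc (p : ℝ) * 2 ^ (2 ^ (49 * m)) * (1 - (1 / 4 : ℝ) ^ (2 * m)) ^ (2 ^ (54 * m))
      ≤ Real.exp ((10 * m : ℕ) : ℝ) * Real.exp ((2 ^ (49 * m) : ℕ) : ℝ) *
        Real.exp (-((2 ^ (50 * m) : ℕ) : ℝ)) := by
        apply mul_le_mul (mul_le_mul h1 h2 (by positivity) (Real.exp_pos _).le) h3 hpos
        positivity
    _ = Real.exp (((10 * m : ℕ) : ℝ) + ((2 ^ (49 * m) : ℕ) : ℝ) +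
        (-((2 ^ (50 * m) : ℕ) : ℝ))) := by rw [Real.exp_add, Real.exp_add]
    _ ≤ Real.exp (-2) := Real.exp_le_exp.mpr (by linarith)
    _ ≤ 1 / 4 := by
        have : Real.exp (-2) * Real.exp 2 = 1 := by rw [← Real.exp_add]; simp
        have h4 : (4 : ℝ) ≤ Real.exp 2 := by
          have : Real.exp 2 = Real.exp 1 * Real.exp 1 := by rw [← Real.exp_add]; norm_num
          rw [this]; nlinarith
        have h5 := Real.exp_pos (-2)
        nlinarith

theorem numeric_B {m p : ℕ} (hm : 8 ≤ m) (hp : p ≤ 2 ^ (10 * m)) :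
    (p * 2 ^ (54 * m)) ^ 2 * (Fintype.card (VV m × VV (2 * m))) ^ 3 * 4 ≤ (2 ^ (46 * m)) ^ 3 := by
  have h1 : p * 2 ^ (54 * m) ≤ 2 ^ (64 * m) := by
    calc p * 2 ^ (54 * m) ≤ 2 ^ (10 * m) * 2 ^ (54 * m) := Nat.mul_le_mul_right _ hp
      _ = 2 ^ (64 * m) := by rw [← pow_add]; congr 1; ring
  rw [card_B]
  calc (p * 2 ^ (54 * m)) ^ 2 * (2 ^ (3 * m)) ^ 3 * 4
      ≤ (2 ^ (64 * m)) ^ 2 * (2 ^ (3 * m)) ^ 3 * 2 ^ m := by
        apply Nat.mul_le_mul (Nat.mul_le_mul (Nat.pow_le_pow_left h1 2) le_rfl)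
        calc 4 = 2 ^ 2 := by norm_num
          _ ≤ 2 ^ m := Nat.pow_le_pow_right (by norm_num) (by omega)
    _ = (2 ^ (46 * m)) ^ 3 := by
        rw [← pow_mul, ← pow_mul, ← pow_mul, ← pow_add, ← pow_add]
        congr 1; ring

theorem mem_Lst {m n Z : ℕ} {ι : Type} [Fintype ι] [DecidableEq ι] {𝒵 : Fin Z → (VV n → Bool)}
    {pat : ι → Finset (VV m × VV n)} {I : Inst m n} {e s : ℕ} {j : ι} (h : j ∈ Lst 𝒵 pat I e s) :
    ∃ e' s', e' ≤ e ∧ pat j ∈ pset 𝒵 I e' s' := by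
  unfold Lst base stg at h
  rw [List.mem_append] at h
  rcases h with h | h
  · rw [List.mem_flatMap] at h
    obtain ⟨e', he', h⟩ := h
    rw [List.mem_flatMap] at h
    obtain ⟨s', hs', h⟩ := h
    rw [List.mem_range] at he'
    rw [mem_toList, mem_filter] at h
    exact ⟨e', s', he'.le, h.2⟩
  · rw [List.mem_flatMap] at h
    obtain ⟨s', hs', h⟩ := h
    rw [mem_toList, mem_filter] at h
    exact ⟨e, s', le_rfl, h.2⟩

theorem Lst_ne_nil {m n Z : ℕ} {ι : Type} [Fintype ι] [DecidableEq ι] {𝒵 : Fin Z → (VV n → Bool)}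
    {pat : ι → Finset (VV m × VV n)} {I : Inst m n} {e : ℕ} {j : ι}
    (h : pat j ∈ pset 𝒵 I e 0) (s : ℕ) : Lst 𝒵 pat I e s ≠ [] := by
  apply List.ne_nil_of_mem (a := j)
  unfold Lst stg
  rw [List.mem_append]
  right
  rw [List.mem_flatMap]
  refine ⟨0, by rw [List.mem_range]; omega, ?_⟩
  rw [mem_toList, mem_filter]
  exact ⟨mem_univ _, h⟩

/-- The incidence structure, on abstract index types. -/
theorem rcore_abs (m : ℕ) (hm : 8 ≤ m) :
    ∃ (ι : Type) (_ : Fintype ι) (_ : DecidableEq ι)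
      (R : ι → Finset ((VV m × VV (2 * m)) × Fin (2 ^ (46 * m))))
      (L : Inst m (2 * m) → List ι),
      Fintype.card ι ≤ 2 ^ (64 * m) ∧ 2 ^ m ≤ Fintype.card ι ∧
      (∀ j, (R j).Nonempty) ∧ (∀ j j', j ≠ j' → (R j ∩ R j').card ≤ 2) ∧
      (∀ I, L I ≠ []) ∧
      (∀ I, ∃ H : Finset ((VV m × VV (2 * m)) × Fin (2 ^ (46 * m))),
        H.card ≤ 2 ^ m * 2 ^ (46 * m) ∧ ∀ j ∈ L I, ∃ x ∈ H, x ∈ R j) ∧
      ∀ Pk : List ι → Finset ((VV m × VV (2 * m)) × Fin (2 ^ (46 * m))),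
        (∀ (l : List ι) (j : ι), Pk l ⊆ Pk (l ++ [j])) →
        (∀ (l : List ι) (j : ι), ∃ y ∈ Pk (l ++ [j]), y ∈ R j) →
        (Fintype.card (Inst m (2 * m)) : ℝ) * ((m : ℝ) * (m - 1) * 2 ^ m / 64) *
          ((2 ^ (46 * m) : ℕ) : ℝ) ≤ ∑ I : Inst m (2 * m), ((Pk (L I)).card : ℝ) := by
  classical
  set q := 2 ^ (46 * m) with hq
  have hq0 : 0 < q := by rw [hq]; positivity
  obtain ⟨𝒵, h𝒵⟩ := exists_universal (V := VV (2 * m)) (2 * m) (2 ^ (4 * m))
    (numeric_U (by omega) (card_VV (2 * m)))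
  have hcp := card_pats hm 𝒵
  obtain ⟨ω, hω1, hω2⟩ := exists_omega (B := VV m × VV (2 * m)) (q := q) (pats m (2 * m) 𝒵)
    (2 ^ (54 * m)) (2 * m) hq0 (numeric_A hm hcp) (numeric_B hm hcp)
  let pat : (pats m (2 * m) 𝒵) × Fin (2 ^ (54 * m)) → Finset (VV m × VV (2 * m)) :=
    fun j => j.1.1
  let R : (pats m (2 * m) 𝒵) × Fin (2 ^ (54 * m)) → Finset ((VV m × VV (2 * m)) × Fin q) :=
    fun j => (pat j).image (fun β => (β, ω j β))
  have hZ0 : 0 < 2 ^ (4 * m) := by positivity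
  have hpat0 : ∀ I : Inst m (2 * m), ∀ e, e < m → ∃ j, pat j ∈ pset 𝒵 I e 0 := by
    intro I e he
    have hne : (patA (0 : VV m) (0 + dl m e) e (e + 0) (lab I 0) (sgn I e)
        (𝒵 ⟨0, hZ0⟩)).Nonempty := by
      rcases patA_nonempty (0 : VV m) (0 + dl m e) e (e + 0) (lab I 0) (sgn I e) (𝒵 ⟨0, hZ0⟩)
        (sgn_zero I e) with h | h
      · exact ⟨_, h⟩
      · exact ⟨_, h⟩
    refine ⟨(⟨_, mem_pats he (by omega) _ _ _ hne⟩, ⟨0, by positivity⟩), ?_⟩
    unfold pset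
    rw [mem_image]
    exact ⟨(0, ⟨0, hZ0⟩), mem_univ _, rfl⟩
  refine ⟨(pats m (2 * m) 𝒵) × Fin (2 ^ (54 * m)), inferInstance, inferInstance, R,
    fun I => Lst 𝒵 pat I (m - 1) (m - 1), ?_, ?_, ?_, ?_, ?_, ?_, ?_⟩
  · rw [Fintype.card_prod, Fintype.card_fin, Fintype.card_coe]
    calc (pats m (2 * m) 𝒵).card * 2 ^ (54 * m) ≤ 2 ^ (10 * m) * 2 ^ (54 * m) :=
          Nat.mul_le_mul_right _ hcp
      _ = 2 ^ (64 * m) := by rw [← pow_add]; congr 1; ring
  · rw [Fintype.card_prod, Fintype.card_fin, Fintype.card_coe]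
    obtain ⟨j, _⟩ := hpat0 (0, fun _ => 0) 0 (by omega)
    have hpos : 0 < (pats m (2 * m) 𝒵).card := Finset.card_pos.mpr ⟨_, j.1.2⟩
    calc 2 ^ m ≤ 1 * 2 ^ (54 * m) := by
          rw [one_mul]; exact Nat.pow_le_pow_right (by norm_num) (by omega)
      _ ≤ _ := Nat.mul_le_mul_right _ hpos
  · intro j
    have := j.1.2
    unfold pats at this
    rw [mem_filter] at this
    exact this.2.image _
  · intro j j' hjj
    have : R j ∩ R j' ⊆ (Finset.univ.filter (fun β => ω j β = ω j' β)).image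
        (fun β => (β, ω j β)) := by
      intro x hx
      simp only [R, Finset.mem_inter, Finset.mem_image] at hx
      obtain ⟨⟨β, _, rfl⟩, ⟨β', _, h⟩⟩ := hx
      simp only [Prod.mk.injEq] at h
      obtain ⟨rfl, h⟩ := h
      simp only [Finset.mem_image, Finset.mem_filter, Finset.mem_univ, true_and]
      exact ⟨β', h.symm, rfl⟩
    exact ((Finset.card_le_card this).trans Finset.card_image_le).trans (hω2 j j' hjj)
  · intro I
    obtain ⟨j, hj⟩ := hpat0 I (m - 1) (by omega)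
    exact Lst_ne_nil hj _
  · intro I
    refine ⟨(univ : Finset (VV m × Fin q)).image (fun t => ((t.1, lab I t.1), t.2)), ?_, ?_⟩
    · refine Finset.card_image_le.trans ?_
      rw [Finset.card_univ, Fintype.card_prod, card_VV, Fintype.card_fin]
    · intro j hj
      obtain ⟨e, s, he, hjp⟩ := mem_Lst hj
      unfold pset at hjp
      rw [mem_image] at hjp
      obtain ⟨⟨x, z⟩, _, hp⟩ := hjp
      simp only at hp
      have hem : e < m := by omega
      have hex : ∃ y : VV m, (y, lab I y) ∈ pat j := by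
        rw [← hp]
        rcases patA_nonempty x (x + dl m e) e (e + s) (lab I x) (sgn I e) (𝒵 z)
          (sgn_zero I e) with h | h
        · exact ⟨x, h⟩
        · refine ⟨x + dl m e, ?_⟩
          rw [lab_shift I x hem]
          exact h
      obtain ⟨y, hy⟩ := hex
      refine ⟨((y, lab I y), ω j (y, lab I y)), ?_, ?_⟩
      · rw [mem_image]
        exact ⟨(y, ω j (y, lab I y)), mem_univ _, rfl⟩
      · simp only [R, Finset.mem_image]
        exact ⟨(y, lab I y), hy, rfl⟩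
  · intro Pk h1 h2
    apply average_bound (by omega) rfl hq0 𝒵 h𝒵 pat R ?_ Pk h1 h2
    intro x e d w0 r j he hd hne N hN
    obtain ⟨i, hi⟩ := hω1 ⟨_, mem_pats he hd w0 r j hne⟩ N hN
    refine ⟨(⟨_, mem_pats he hd w0 r j hne⟩, i), rfl, ?_⟩
    rw [Finset.disjoint_left]
    intro y hy hyN
    simp only [R, pat, Finset.mem_image] at hy
    obtain ⟨β, hβ, rfl⟩ := hy
    exact hi β hβ hyN

/-- The incidence structure, on `Fin m` and `Fin n`. -/
theorem rcore (N : ℕ) : ∃ g : ℕ, N ≤ g ∧ 8 ≤ g ∧ ∃ (m n k : ℕ) (R : Fin m → Finset (Fin n))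
    (J : Type) (_ : Fintype J) (_ : Nonempty J) (L : J → List (Fin m)),
    g ≤ m ∧ g ≤ n ∧ m ≤ 2 ^ (64 * g) ∧ n ≤ 2 ^ (64 * g) ∧ 0 < k ∧
    (∀ j, (R j).Nonempty) ∧ (∀ j j', j ≠ j' → (R j ∩ R j').card ≤ 2) ∧
    (∀ I, L I ≠ []) ∧
    (∀ I, ∃ H : Finset (Fin n), H.card ≤ k ∧ ∀ j ∈ L I, ∃ x ∈ H, x ∈ R j) ∧
    ∀ Pk : List (Fin m) → Finset (Fin n),
      (∀ (l : List (Fin m)) (j : Fin m), Pk l ⊆ Pk (l ++ [j])) →
      (∀ (l : List (Fin m)) (j : Fin m), ∃ y ∈ Pk (l ++ [j]), y ∈ R j) →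
      (Fintype.card J : ℝ) * ((g : ℝ) ^ 2 / 128 * k) ≤ ∑ I : J, ((Pk (L I)).card : ℝ) := by
  classical
  set g := max N 8 with hg
  have hg8 : 8 ≤ g := by omega
  obtain ⟨ι, i1, i2, R, L, hc1, hc2, hne, hpair, hL, hH, hgame⟩ := rcore_abs g hg8
  have hcE : Fintype.card ((VV g × VV (2 * g)) × Fin (2 ^ (46 * g))) = 2 ^ (49 * g) := by
    rw [Fintype.card_prod, card_B, Fintype.card_fin, ← pow_add]; congr 1; ring
  have hlt : ∀ n : ℕ, n < 2 ^ n := fun n => Nat.lt_two_pow_self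
  let eι := Fintype.equivFin ι
  let eE := Fintype.equivFin ((VV g × VV (2 * g)) × Fin (2 ^ (46 * g)))
  let R' : Fin (Fintype.card ι) →
      Finset (Fin (Fintype.card ((VV g × VV (2 * g)) × Fin (2 ^ (46 * g))))) :=
    fun j => (R (eι.symm j)).map eE.toEmbedding
  refine ⟨g, by omega, hg8, Fintype.card ι,
    Fintype.card ((VV g × VV (2 * g)) × Fin (2 ^ (46 * g))), 2 ^ g * 2 ^ (46 * g), R',
    Inst g (2 * g), inferInstance, inferInstance, fun I => (L I).map eι,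
    ?_, ?_, hc1, ?_, by positivity, ?_, ?_, ?_, ?_, ?_⟩
  · exact (hlt g).le.trans hc2
  · rw [hcE]
    exact (hlt g).le.trans (Nat.pow_le_pow_right (by norm_num) (by omega))
  · rw [hcE]
    exact Nat.pow_le_pow_right (by norm_num) (by omega)
  · intro j
    exact (hne _).map
  · intro j j' hjj
    simp only [R']
    rw [← Finset.map_inter, Finset.card_map]
    exact hpair _ _ (fun h => hjj (eι.symm.injective h))
  · intro I h
    exact hL I (List.map_eq_nil_iff.mp h)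
  · intro I
    obtain ⟨H, hHc, hHh⟩ := hH I
    refine ⟨H.map eE.toEmbedding, by rw [Finset.card_map]; exact hHc, ?_⟩
    intro j hj
    rw [List.mem_map] at hj
    obtain ⟨i, hi, rfl⟩ := hj
    obtain ⟨x, hx, hxR⟩ := hHh i hi
    refine ⟨eE x, Finset.mem_map_of_mem _ hx, ?_⟩
    simp only [R', Equiv.symm_apply_apply]
    exact Finset.mem_map_of_mem _ hxR
  · intro Pk h1 h2
    have h3 := hgame (fun l => (Pk (l.map eι)).map eE.symm.toEmbedding) ?_ ?_
    · simp only [Finset.card_map] at h3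
      refine le_trans ?_ h3
      rw [mul_assoc]
      apply mul_le_mul_of_nonneg_left _ (by positivity)
      push_cast
      have hg' : (8 : ℝ) ≤ g := by exact_mod_cast hg8
      have h4 : (g : ℝ) ^ 2 / 128 ≤ (g : ℝ) * (g - 1) / 64 := by
        rw [div_le_div_iff₀ (by norm_num) (by norm_num)]
        nlinarith
      have h5 : (0 : ℝ) ≤ 2 ^ g * 2 ^ (46 * g) := by positivity
      calc (g : ℝ) ^ 2 / 128 * (2 ^ g * 2 ^ (46 * g))
          ≤ (g : ℝ) * (g - 1) / 64 * (2 ^ g * 2 ^ (46 * g)) := mul_le_mul_of_nonneg_right h4 h5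
        _ = _ := by ring
    · intro l j
      rw [List.map_append]
      exact Finset.map_subset_map.mpr (h1 _ _)
    · intro l j
      obtain ⟨y, hy, hyR⟩ := h2 (l.map eι) (eι j)
      refine ⟨eE.symm y, ?_, ?_⟩
      · rw [List.map_append]
        exact Finset.mem_map_of_mem _ hy
      · simp only [R', Finset.mem_map, Equiv.symm_apply_apply] at hyR
        obtain ⟨a, ha, hae⟩ := hyR
        rw [← hae]
        simpa using ha

/-! ### VC-dimension of the two set systems -/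

theorem vc_sets {m n : ℕ} (R : Fin m → Finset (Fin n))
    (hR : ∀ j j', j ≠ j' → (R j ∩ R j').card ≤ 2) : (Finset.univ.image R).vcDim ≤ 3 := by
  rw [Finset.vcDim]
  apply Finset.sup_le
  intro s hs
  rw [Finset.mem_shatterer] at hs
  by_contra hcon
  push Not at hcon
  obtain ⟨t, ht, htc⟩ := Finset.exists_subset_card_eq hcon.le
  obtain ⟨u, hu, hsu⟩ := hs (subset_refl s)
  obtain ⟨v, hv, hsv⟩ := hs ht
  rw [Finset.mem_image] at hu hv
  obtain ⟨j, _, rfl⟩ := hu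
  obtain ⟨j', _, rfl⟩ := hv
  have hjj : j ≠ j' := by
    rintro rfl
    rw [hsu] at hsv
    rw [← hsv] at htc
    omega
  have h1 : t ⊆ R j ∩ R j' := by
    intro x hx
    rw [Finset.mem_inter]
    constructor
    · have : x ∈ s ∩ R j := by rw [hsu]; exact ht hx
      exact (Finset.mem_inter.mp this).2
    · have : x ∈ s ∩ R j' := by rw [hsv]; exact hx
      exact (Finset.mem_inter.mp this).2
  have := (Finset.card_le_card h1).trans (hR j j' hjj)
  omega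

theorem vc_points {m n : ℕ} (R : Fin m → Finset (Fin n))
    (hR : ∀ j j', j ≠ j' → (R j ∩ R j').card ≤ 2) :
    (Finset.univ.image (fun e : Fin n => Finset.univ.filter (fun j => e ∈ R j))).vcDim ≤ 3 := by
  rw [Finset.vcDim]
  apply Finset.sup_le
  intro s hs
  rw [Finset.mem_shatterer] at hs
  by_contra hcon
  push Not at hcon
  obtain ⟨t, ht, htc⟩ := Finset.exists_subset_card_eq (Nat.succ_le_of_lt hcon)
  obtain ⟨a, b, c, d, hab, hac, had, hbc, hbd, hcd, rfl⟩ := Finset.card_eq_four.mp htc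
  have key : ∀ r ⊆ s, a ∈ r → b ∈ r → ∃ e : Fin n, e ∈ R a ∩ R b ∧ ∀ x ∈ s, (e ∈ R x ↔ x ∈ r) := by
    intro r hr har hbr
    obtain ⟨u, hu, hsu⟩ := hs hr
    rw [Finset.mem_image] at hu
    obtain ⟨e, _, rfl⟩ := hu
    have h1 : ∀ x ∈ s, (e ∈ R x ↔ x ∈ r) := by
      intro x hx
      rw [← hsu]
      simp [hx]
    refine ⟨e, ?_, h1⟩
    rw [Finset.mem_inter]
    exact ⟨(h1 a (hr har)).mpr har, (h1 b (hr hbr)).mpr hbr⟩
  have ha : a ∈ s := ht (by simp)
  have hb : b ∈ s := ht (by simp)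
  have hc : c ∈ s := ht (by simp)
  have hd : d ∈ s := ht (by simp)
  obtain ⟨e1, he1, h1⟩ := key {a, b} (by intro x hx; simp at hx; rcases hx with rfl | rfl <;> assumption)
    (by simp) (by simp)
  obtain ⟨e2, he2, h2⟩ := key {a, b, c}
    (by intro x hx; simp at hx; rcases hx with rfl | rfl | rfl <;> assumption) (by simp) (by simp)
  obtain ⟨e3, he3, h3⟩ := key {a, b, d}
    (by intro x hx; simp at hx; rcases hx with rfl | rfl | rfl <;> assumption) (by simp) (by simp)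
  have n12 : e1 ≠ e2 := by
    rintro rfl
    have x1 := (h1 c hc).mp ((h2 c hc).mpr (by simp))
    simp at x1
    rcases x1 with h | h
    · exact hac h.symm
    · exact hbc h.symm
  have n13 : e1 ≠ e3 := by
    rintro rfl
    have x1 := (h1 d hd).mp ((h3 d hd).mpr (by simp))
    simp at x1
    rcases x1 with h | h
    · exact had h.symm
    · exact hbd h.symm
  have n23 : e2 ≠ e3 := by
    rintro rfl
    have x1 := (h2 d hd).mp ((h3 d hd).mpr (by simp))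
    simp at x1
    rcases x1 with h | h | h
    · exact had h.symm
    · exact hbd h.symm
    · exact hcd h.symm
  have hsub : ({e1, e2, e3} : Finset (Fin n)) ⊆ R a ∩ R b := by
    intro x hx
    simp only [Finset.mem_insert, Finset.mem_singleton] at hx
    rcases hx with rfl | rfl | rfl <;> assumption
  have hcard : ({e1, e2, e3} : Finset (Fin n)).card = 3 := by
    rw [Finset.card_eq_three]
    exact ⟨e1, e2, e3, n12, n13, n23, rfl⟩
  have hab' := hR a b hab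
  have := Finset.card_le_card hsub
  omega

end Pool.Agent.Lib_MP_ba67f2_lc
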